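import Mathlib

/-!
The bound `12` is attained.
-/

set_option autoImplicit false

namespace Pool.Agent.Zk84.M4

/-- the product of a square and a disc -/
def Cyl : Set (EuclideanSpace ℝ (Fin 4)) :=
  {x | |x 0| ≤ 1 ∧ |x 1| ≤ 1 ∧ x 2 ^ 2 + x 3 ^ 2 ≤ 1}

/-- `Cyl` is a convex body with infinitely many affine symmetries which needs twelve translates of
its interior -/
def Sharp : Prop := Convex ℝ Cyl ∧ IsCompact Cyl ∧ (interior Cyl).Nonempty ∧
  {g : EuclideanSpace ℝ (Fin 4) ≃ᵃ[ℝ] EuclideanSpace ℝ (Fin 4) | g '' Cyl = Cyl}.Infinite ∧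
  ∀ T : Finset (EuclideanSpace ℝ (Fin 4)),
    Cyl ⊆ ⋃ t ∈ T, (fun x => t + x) '' interior Cyl → 12 ≤ T.card

end Pool.Agent.Zk84.M4
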