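import Pool.Agent.Zk84.M4.FamH

/-!
The check of a tree of boxes, with certificates which are valid only outside of a disc.
-/

set_option autoImplicit false

namespace Pool.Agent.Zk84.M4

open Complex
open Pool.Agent.Zk84.M3

/-- the box is outside of the disc of radius `ρ / 1024` -/
def outR (S ρ X0 X1 Y0 Y1 : ℕ) : Bool :=
  Nat.ble (Nat.mul (Nat.mul ρ S) (Nat.mul ρ S))
    (Nat.mul 1048576 (Nat.add (Nat.mul (near S X0 X1) (near S X0 X1))
      (Nat.mul (near S Y0 Y1) (near S Y0 Y1))))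

theorem outR_sound {S ρ : ℕ} (hS : 0 < S) {X0 X1 Y0 Y1 : ℕ} (h : outR S ρ X0 X1 Y0 Y1 = true)
    {x y : ℝ} (h1 : (X0 : ℝ) ≤ S * x + S) (h2 : (S : ℝ) * x + S ≤ X1)
    (h3 : (Y0 : ℝ) ≤ S * y + S) (h4 : (S : ℝ) * y + S ≤ Y1) :
    ((ρ : ℝ) / 1024) ^ 2 ≤ x ^ 2 + y ^ 2 := by
  have k : (ρ * S) * (ρ * S) ≤ 1048576 * (near S X0 X1 * near S X0 X1 +
      near S Y0 Y1 * near S Y0 Y1) := Nat.le_of_ble_eq_true h
  have k' : (((ρ : ℝ)) * S) * (ρ * S) ≤ 1048576 * (((near S X0 X1 : ℕ) : ℝ) *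
      ((near S X0 X1 : ℕ) : ℝ) + ((near S Y0 Y1 : ℕ) : ℝ) * ((near S Y0 Y1 : ℕ) : ℝ)) := by
    exact_mod_cast k
  have a := near_sq h1 h2
  have b := near_sq h3 h4
  have hS' : (0 : ℝ) < S := by exact_mod_cast hS
  have e : (S : ℝ) * x * (S * x) + S * y * (S * y) = S ^ 2 * (x ^ 2 + y ^ 2) := by ring
  have h5 : (S : ℝ) ^ 2 * ((ρ : ℝ) / 1024) ^ 2 ≤ S ^ 2 * (x ^ 2 + y ^ 2) := by
    rw [← e]
    have e2 : (S : ℝ) ^ 2 * ((ρ : ℝ) / 1024) ^ 2 = (ρ * S) * (ρ * S) / 1048576 := by ring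
    rw [e2, div_le_iff₀ (by norm_num)]
    nlinarith
  exact le_of_mul_le_mul_left h5 (by positivity)

/-- the check of a tree of boxes -/
def tree2 (S : ℕ) (nc : ℕ) (fd : ℕ → List Nc) (rd : ℕ → ℕ) : ℕ → ℕ → ℕ → ℕ → ℕ → ℕ → Option ℕ
  | 0, _, _, _, _, _ => none
  | f + 1, T, X0, X1, Y0, Y1 =>
    match Nat.mod T 512 with
    | 0 => bif outside S X0 X1 Y0 Y1 then some (Nat.div T 512) else none
    | k + 1 =>
      bif Nat.ble k 126 then
        (bif and (Nat.ble (Nat.succ k) nc) (and (outR S (rd k) X0 X1 Y0 Y1)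
            (allL (fd k) (fun c => box S c X0 X1 Y0 Y1))) then
          some (Nat.div T 512) else none)
      else bif Nat.ble k 318 then
        match tree2 S nc fd rd f (Nat.div T 512) X0 (Nat.sub k 127) Y0 Y1 with
        | some T' => tree2 S nc fd rd f T' (Nat.sub k 127) X1 Y0 Y1
        | none => none
      else
        match tree2 S nc fd rd f (Nat.div T 512) X0 X1 Y0 (Nat.sub k 319) with
        | some T' => tree2 S nc fd rd f T' X0 X1 (Nat.sub k 319) Y1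
        | none => none

theorem tree2_sound {S : ℕ} (hS : 0 < S) {nc : ℕ} {fp : ℕ → List Pc} {rd : ℕ → ℕ} :
    ∀ (f T : ℕ)
    (X0 X1 Y0 Y1 : ℕ) (T' : ℕ),
    tree2 S nc (fun j => (fp j).map toNc) rd f T X0 X1 Y0 Y1 = some T' → ∀ x y : ℝ,
    (X0 : ℝ) ≤ S * x + S → (S : ℝ) * x + S ≤ X1 → (Y0 : ℝ) ≤ S * y + S →
    (S : ℝ) * y + S ≤ Y1 →
    x ^ 2 + y ^ 2 ≤ 1 → ∃ j < nc, ((rd j : ℝ) / 1024) ^ 2 ≤ x ^ 2 + y ^ 2 ∧
      ∀ p ∈ fp j, val p x y < (p.r : ℝ) ^ 2 := by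
  intro f
  induction f with
  | zero => intro T X0 X1 Y0 Y1 T' h; simp [tree2] at h
  | succ f ih =>
    intro T X0 X1 Y0 Y1 T' h x y h1 h2 h3 h4 hxy
    simp only [tree2] at h
    cases hk : Nat.mod T 512 with
    | zero =>
      rw [hk] at h
      cases ho : outside S X0 X1 Y0 Y1 with
      | true => exact (outside_sound ho h1 h2 h3 h4 hxy).elim
      | false => simp only [ho, cond_false] at h; exact absurd h (by simp)
    | succ k =>
      rw [hk] at h
      simp only at h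
      cases hb1 : Nat.ble k 126 with
      | true =>
        rw [hb1, cond_true] at h
        cases hc : (and (Nat.ble (Nat.succ k) nc) (and (outR S (rd k) X0 X1 Y0 Y1)
            (allL ((fp k).map toNc) (fun c => box S c X0 X1 Y0 Y1)))) with
        | false => rw [hc, cond_false] at h; exact absurd h (by simp)
        | true =>
          rw [Bool.and_eq_true, Bool.and_eq_true] at hc
          have hle := Nat.le_of_ble_eq_true hc.1
          refine ⟨k, hle, outR_sound hS hc.2.1 h1 h2 h3 h4, fun p hp => ?_⟩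
          exact box_sound hS (allL_sound _ hc.2.2 (toNc p) (List.mem_map_of_mem hp)) h1 h2 h3 h4
      | false =>
        rw [hb1, cond_false] at h
        cases hb2 : Nat.ble k 318 with
        | true =>
          rw [hb2, cond_true] at h
          cases ht : tree2 S nc (fun j => (fp j).map toNc) rd f (Nat.div T 512) X0 (Nat.sub k 127)
              Y0 Y1 with
          | none => rw [ht] at h; exact absurd h (by simp)
          | some T1 =>
            rw [ht] at h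
            rcases le_total ((S : ℝ) * x + S) ((Nat.sub k 127 : ℕ) : ℝ) with hx | hx
            · exact ih _ _ _ _ _ _ ht x y h1 hx h3 h4 hxy
            · exact ih _ _ _ _ _ _ h x y hx h2 h3 h4 hxy
        | false =>
          rw [hb2, cond_false] at h
          cases ht : tree2 S nc (fun j => (fp j).map toNc) rd f (Nat.div T 512) X0 X1 Y0
              (Nat.sub k 319) with
          | none => rw [ht] at h; exact absurd h (by simp)
          | some T1 =>
            rw [ht] at h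
            rcases le_total ((S : ℝ) * y + S) ((Nat.sub k 319 : ℕ) : ℝ) with hy | hy
            · exact ih _ _ _ _ _ _ ht x y h1 h2 h3 hy hxy
            · exact ih _ _ _ _ _ _ h x y h1 h2 hy h4 hxy

/-- the check of the data of an arc; `Yb = 0` for the disc, `Yb = 1` for the upper half disc -/
def arcOK2 (fa fd : ℕ → ℕ → List Pc) (rd : ℕ → ℕ → ℕ) (side : ℕ → ℕ → Bool) (Yb : ℕ) (A : ArcD) : Bool :=
  and (and (Nat.ble 1 A.S) (and (Nat.ble A.P0 128) (and (Nat.ble A.P1 128) (crOK A.P0 A.P1))))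
    (and (allB A.nc (fun j => and (side A.C j)
      (and (allP (fa A.C j) (okA A.P0 A.P1)) (allP (fd A.C j) (fun p => decide (0 < p.r))))))
      (tree2 A.S A.nc (fun j => (fd A.C j).map toNc) (rd A.C) 60 A.T 0 (2 * A.S) (Yb * A.S)
        (2 * A.S)).isSome)

/-- the conclusion for a point of the arc and a point of the disc -/
def Hit2 (fa fd : ℕ → ℕ → List Pc) (rd : ℕ → ℕ → ℕ) (side : ℕ → ℕ → Bool) (x y u v : ℝ) : Prop :=
  ∃ C j : ℕ, side C j = true ∧ ((rd C j : ℝ) / 1024) ^ 2 ≤ u ^ 2 + v ^ 2 ∧ (∀ p ∈ fa C j, 0 ≤ p.r ∧ val p x y ≤ (p.r : ℝ) ^ 2) ∧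
    ∀ p ∈ fd C j, 0 < p.r ∧ val p u v < (p.r : ℝ) ^ 2

theorem arc_hit2 {fa fd : ℕ → ℕ → List Pc} {rd : ℕ → ℕ → ℕ} {side : ℕ → ℕ → Bool} {Yb : ℕ} {A : ArcD}
    (h : arcOK2 fa fd rd side Yb A = true) {x y u v : ℝ} (hxy : x ^ 2 + y ^ 2 = 1)
    (h1 : 0 ≤ ptA A.P0 * y - ptB A.P0 * x) (h2 : 0 ≤ x * ptB A.P1 - y * ptA A.P1)
    (huv : u ^ 2 + v ^ 2 ≤ 1) (hv : (Yb : ℝ) - 1 ≤ v) : Hit2 fa fd rd side x y u v := by
  simp only [arcOK2, Bool.and_eq_true] at h
  obtain ⟨⟨hS, hP0, hP1, hcr⟩, hall, htree⟩ := h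
  replace hS : 0 < A.S := Nat.le_of_ble_eq_true hS
  replace hP0 := Nat.le_of_ble_eq_true hP0
  replace hP1 := Nat.le_of_ble_eq_true hP1
  obtain ⟨T', hT'⟩ := Option.isSome_iff_exists.1 htree
  have hS' : (0 : ℝ) < A.S := by exact_mod_cast hS
  have hu1 : |u| ≤ 1 := abs_le_one_iff_mul_self_le_one.2 (by nlinarith [sq_nonneg v])
  have hv1 : |v| ≤ 1 := abs_le_one_iff_mul_self_le_one.2 (by nlinarith [sq_nonneg u])
  rw [abs_le] at hu1 hv1
  obtain ⟨j, hj, hrd, hd⟩ := tree2_sound hS 60 A.T _ _ _ _ T' hT' u v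
    (by push_cast; nlinarith) (by push_cast; nlinarith) (by push_cast; nlinarith)
    (by push_cast; nlinarith) huv
  have hc := allB_sound _ hall j hj
  simp only [Bool.and_eq_true] at hc
  obtain ⟨hs, hfa, hfd⟩ := hc
  refine ⟨A.C, j, hs, hrd, fun p hp => ?_, fun p hp => ⟨?_, hd p hp⟩⟩
  · exact okA_sound (allP_sound _ hfa p hp) hP0 hP1 (crOK_iff hcr) hxy h1 h2
  · exact of_decide_eq_true (allP_sound _ hfd p hp)

theorem chain_hit2 {fa fd : ℕ → ℕ → List Pc} {rd : ℕ → ℕ → ℕ} {side : ℕ → ℕ → Bool} {Yb E : ℕ} {x y u v : ℝ}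
    (hxy : x ^ 2 + y ^ 2 = 1) (hE : 0 ≤ x * ptB E - y * ptA E)
    (huv : u ^ 2 + v ^ 2 ≤ 1) (hv : (Yb : ℝ) - 1 ≤ v) : ∀ (l : List ArcD) (P : ℕ), l ≠ [] →
    allArc l (arcOK2 fa fd rd side Yb) = true → chainOK E P l = true →
    0 ≤ ptA P * y - ptB P * x → Hit2 fa fd rd side x y u v := by
  intro l
  induction l with
  | nil => intro P h; exact absurd rfl h
  | cons A l ih =>
    intro P _ hl hch hP
    simp only [allArc, Bool.and_eq_true] at hl
    simp only [chainOK, Bool.and_eq_true, decide_eq_true_eq] at hch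
    obtain ⟨h0, h1⟩ := hch
    rcases le_total 0 (x * ptB A.P1 - y * ptA A.P1) with hq | hq
    · exact arc_hit2 hl.1 hxy (by rw [h0]; exact hP) hq huv hv
    · by_cases hne : l = []
      · subst hne
        simp only [chainOK, decide_eq_true_eq] at h1
        rw [h1] at hq
        refine arc_hit2 hl.1 hxy (by rw [h0]; exact hP) ?_ huv hv
        rw [h1]; exact hE
      · exact ih A.P1 hne hl.2 h1 (by linarith)


/-- the arcs of the upper half plane, with the whole disc -/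
theorem halfdisc2 {fa fd : ℕ → ℕ → List Pc} {rd : ℕ → ℕ → ℕ} {side : ℕ → ℕ → Bool} {l : List ArcD}
    (hne : l ≠ []) (hl : allArc l (arcOK2 fa fd rd side 0) = true) (hch : chainOK 128 0 l = true)
    {z w : ℂ} (h1 : ‖z‖ = 1) (him : 0 ≤ z.im) (h2 : ‖w‖ ≤ 1) :
    Hit2 fa fd rd side z.re z.im w.re w.im := by
  have hn1 : z.re ^ 2 + z.im ^ 2 = 1 := by
    have := Complex.sq_norm z
    rw [h1, Complex.normSq_apply] at this
    nlinarith
  have hn2 : w.re ^ 2 + w.im ^ 2 ≤ 1 := by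
    have := Complex.sq_norm w
    rw [Complex.normSq_apply] at this
    have h3 : ‖w‖ ^ 2 ≤ 1 := by nlinarith [norm_nonneg w]
    nlinarith
  have hw : |w.im| ≤ 1 := (Complex.abs_im_le_norm w).trans h2
  rw [abs_le] at hw
  refine chain_hit2 hn1 ?_ hn2 (by push_cast; linarith) l 0 hne hl hch ?_
  · rw [ptB_128, ptA_128]; nlinarith
  · rw [ptB_0, ptA_0]; nlinarith

/-- the arcs of the upper half plane -/
theorem halfplane2 {fa fd : ℕ → ℕ → List Pc} {rd : ℕ → ℕ → ℕ} {side : ℕ → ℕ → Bool} {l : List ArcD}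
    (hne : l ≠ []) (hl : allArc l (arcOK2 fa fd rd side 1) = true) (hch : chainOK 128 0 l = true)
    {z w : ℂ} (h1 : ‖z‖ = 1) (him : 0 ≤ z.im) (h2 : ‖w‖ ≤ 1) (hw : 0 ≤ w.im) :
    Hit2 fa fd rd side z.re z.im w.re w.im := by
  have hn1 : z.re ^ 2 + z.im ^ 2 = 1 := by
    have := Complex.sq_norm z
    rw [h1, Complex.normSq_apply] at this
    nlinarith
  have hn2 : w.re ^ 2 + w.im ^ 2 ≤ 1 := by
    have := Complex.sq_norm w
    rw [Complex.normSq_apply] at this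
    have h3 : ‖w‖ ^ 2 ≤ 1 := by nlinarith [norm_nonneg w]
    nlinarith
  refine chain_hit2 hn1 ?_ hn2 (by push_cast; linarith) l 0 hne hl hch ?_
  · rw [ptB_128, ptA_128]; nlinarith
  · rw [ptB_0, ptA_0]; nlinarith

end Pool.Agent.Zk84.M4
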