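import Pool.Agent.Zk84.M3.FamC

/-!
Cells which are invariant under `x ↦ -x` only, with general cones.
-/

set_option autoImplicit false

namespace Pool.Agent.Zk84.M4

open Complex
open Pool.Agent.Zk84.HC (rot vec vec_rot norm_le_of_sq norm_lt_of_sq)
open Pool.Agent.Zk84.M3

/-- the parameters of a cell -/
structure PB where
  P : PA
  c4 : ℤ

/-- the common side conditions -/
def side0 (Q : PB) (C j : ℕ) : Bool :=
  Nat.blt (fldN C (8 * j)) Q.P.dirs.length && (decide (0 ≤ fld C (8 * j + 3)) &&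
    (decide (Q.P.c3 * (fld C (8 * j + 4) * fld C (8 * j + 4)) ≤
        Q.c4 * (fld C (8 * j + 3) * fld C (8 * j + 3))) &&
      (decide (0 ≤ fld C (8 * j + 5)) && decide (fld C (8 * j + 5) ≤ Q.P.fs * 100000))))

/-- the side conditions, the first face -/
def side1 (Q : PB) (C j : ℕ) : Bool :=
  side0 Q C j &&
    decide (Q.P.wn * fld C (8 * j + 6) + Q.P.wd * fld C (8 * j + 7) ≤ Q.P.wd * fld C (8 * j + 1))

/-- the side conditions, the second face -/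
def side2 (Q : PB) (C j : ℕ) : Bool :=
  side0 Q C j &&
    decide (Q.P.wd * fld C (8 * j + 6) + Q.P.wn * fld C (8 * j + 7) ≤ Q.P.wd * fld C (8 * j + 1))

/-- a point is illuminated by one of the directions -/
def GoodH (dirs : List (ℤ × ℤ × ℤ × ℤ)) (c3 c4 fs W k : ℝ) (x1 x2 : ℂ) : Prop :=
  ∃ d ∈ dirs, ∃ l w p q s : ℝ, 0 ≤ p ∧ c3 * q ^ 2 ≤ c4 * p ^ 2 ∧ 0 ≤ s ∧ (fs = 0 → s = 0) ∧
    W * ‖(⟨l + p, k * w + q⟩ : ℂ) * x1 - (vec d).1‖ + ‖(⟨l + s, w⟩ : ℂ) * x2 - (vec d).2‖ < l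

theorem goodH_of {Q : PB} {k : ℝ} {x1 x2 : ℂ} {C j : ℕ}
    (h0 : side0 Q C j = true) {A B : ℝ}
    (hA : ‖(⟨(fld C (8 * j + 1) : ℝ) + fld C (8 * j + 3),
      k * fld C (8 * j + 2) + fld C (8 * j + 4)⟩ : ℂ) * x1 -
      (vec (nth Q.P.dirs (fldN C (8 * j)))).1‖ = A)
    (hB : ‖(⟨(fld C (8 * j + 1) : ℝ) + fld C (8 * j + 5), (fld C (8 * j + 2) : ℝ)⟩ : ℂ) * x2 -
      (vec (nth Q.P.dirs (fldN C (8 * j)))).2‖ = B)
    (hlt : (Q.P.wn / Q.P.wd : ℝ) * A + B < fld C (8 * j + 1)) :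
    GoodH Q.P.dirs Q.P.c3 Q.c4 Q.P.fs (Q.P.wn / Q.P.wd) k x1 x2 := by
  simp only [side0, Bool.and_eq_true, decide_eq_true_eq] at h0
  obtain ⟨hg, hp, hq, hs0, hsf⟩ := h0
  have hg' : fldN C (8 * j) < Q.P.dirs.length := Nat.le_of_ble_eq_true hg
  refine ⟨nth Q.P.dirs (fldN C (8 * j)), nth_mem _ _ hg', fld C (8 * j + 1), fld C (8 * j + 2),
    fld C (8 * j + 3), fld C (8 * j + 4), fld C (8 * j + 5), by exact_mod_cast hp, ?_,
    by exact_mod_cast hs0, ?_, ?_⟩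
  · have : (Q.P.c3 : ℝ) * ((fld C (8 * j + 4) : ℝ) * fld C (8 * j + 4)) ≤
        (Q.c4 : ℝ) * ((fld C (8 * j + 3) : ℝ) * fld C (8 * j + 3)) := by exact_mod_cast hq
    nlinarith [this]
  · intro hf
    have hf' : Q.P.fs = 0 := by exact_mod_cast hf
    rw [hf'] at hsf
    have : fld C (8 * j + 5) = 0 := le_antisymm (by simpa using hsf) hs0
    exact_mod_cast this
  · rw [hA, hB]; exact hlt

theorem goodH1 {Q : PB} (hD : 0 < Q.P.D) (hwd : 0 < Q.P.wd) (hwn : 0 < Q.P.wn) {k : ℝ}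
    (h0 : (Q.P.n0 : ℝ) ≤ k * Q.P.D) (h1 : k * Q.P.D ≤ Q.P.n1) {x1 x2 : ℂ}
    (h : Hit (fa1 Q.P) (fd1 Q.P) (side1 Q) x1.re x1.im x2.re x2.im) :
    GoodH Q.P.dirs Q.P.c3 Q.c4 Q.P.fs (Q.P.wn / Q.P.wd) k x1 x2 := by
  obtain ⟨C, j, hs, ha, hd⟩ := h
  simp only [side1, Bool.and_eq_true, decide_eq_true_eq] at hs
  obtain ⟨hs0, hw⟩ := hs
  have hD' : (0 : ℝ) < Q.P.D := by exact_mod_cast hD
  have hwd' : (0 : ℝ) < Q.P.wd := by exact_mod_cast hwd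
  have hwn' : (0 : ℝ) < Q.P.wn := by exact_mod_cast hwn
  have a0 := ha (pc1 Q.P Q.P.n0 6 C j) (by simp [fa1])
  have a1 := ha (pc1 Q.P Q.P.n1 6 C j) (by simp [fa1])
  have d0 := hd (pc2 Q.P 7 C j) (by simp [fd1])
  have b0 := cz_le a0.1 a0.2
  have b1 := cz_le a1.1 a1.2
  have b2 := cz_lt d0.1 d0.2
  rw [cz_pc1] at b0 b1
  rw [cz_pc2] at b2
  have eR : (((pc1 Q.P Q.P.n0 6 C j).r : ℤ) : ℝ) = Q.P.D * fld C (8 * j + 6) := by
    simp only [pc1]; push_cast; rfl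
  have eR' : (((pc1 Q.P Q.P.n1 6 C j).r : ℤ) : ℝ) = Q.P.D * fld C (8 * j + 6) := by
    simp only [pc1]; push_cast; rfl
  rw [eR] at b0
  rw [eR'] at b1
  have key := piece_comb (convex_closedBall (0 : ℂ) (Q.P.D * fld C (8 * j + 6))) h0 h1
    (by rw [mem_closedBall_zero_iff]; exact b0) (by rw [mem_closedBall_zero_iff]; exact b1)
  have hA := le_of_mul_norm hD' key
  have hB : ‖(⟨(fld C (8 * j + 1) : ℝ) + fld C (8 * j + 5), (fld C (8 * j + 2) : ℝ)⟩ : ℂ) * x2 -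
      (vec (nth Q.P.dirs (fldN C (8 * j)))).2‖ < fld C (8 * j + 7) := b2
  refine goodH_of hs0 rfl rfl ?_
  have hw' : (Q.P.wn : ℝ) * fld C (8 * j + 6) + Q.P.wd * fld C (8 * j + 7) ≤
    Q.P.wd * fld C (8 * j + 1) := by exact_mod_cast hw
  have hW : (Q.P.wn / Q.P.wd : ℝ) * fld C (8 * j + 6) + fld C (8 * j + 7) ≤ fld C (8 * j + 1) := by
    rw [div_mul_eq_mul_div, div_add' _ _ _ hwd'.ne', div_le_iff₀ hwd']
    linarith
  have hWA := mul_le_mul_of_nonneg_left hA (div_nonneg hwn'.le hwd'.le)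
  refine lt_of_lt_of_le (add_lt_add_of_le_of_lt hWA hB) hW

theorem goodH2 {Q : PB} (hD : 0 < Q.P.D) (hwd : 0 < Q.P.wd) (hwn : 0 < Q.P.wn) {k : ℝ}
    (h0 : (Q.P.n0 : ℝ) ≤ k * Q.P.D) (h1 : k * Q.P.D ≤ Q.P.n1) {x1 x2 : ℂ}
    (h : Hit (fa2 Q.P) (fd2 Q.P) (side2 Q) x2.re x2.im x1.re x1.im) :
    GoodH Q.P.dirs Q.P.c3 Q.c4 Q.P.fs (Q.P.wn / Q.P.wd) k x1 x2 := by
  obtain ⟨C, j, hs, ha, hd⟩ := h
  simp only [side2, Bool.and_eq_true, decide_eq_true_eq] at hs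
  obtain ⟨hs0, hw⟩ := hs
  have hD' : (0 : ℝ) < Q.P.D := by exact_mod_cast hD
  have hwd' : (0 : ℝ) < Q.P.wd := by exact_mod_cast hwd
  have hwn' : (0 : ℝ) < Q.P.wn := by exact_mod_cast hwn
  have a0 := hd (pc1 Q.P Q.P.n0 7 C j) (by simp [fd2])
  have a1 := hd (pc1 Q.P Q.P.n1 7 C j) (by simp [fd2])
  have d0 := ha (pc2 Q.P 6 C j) (by simp [fa2])
  have b0 := cz_lt a0.1 a0.2
  have b1 := cz_lt a1.1 a1.2
  have b2 := cz_le d0.1 d0.2
  rw [cz_pc1] at b0 b1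
  rw [cz_pc2] at b2
  have eR : (((pc1 Q.P Q.P.n0 7 C j).r : ℤ) : ℝ) = Q.P.D * fld C (8 * j + 7) := by
    simp only [pc1]; push_cast; rfl
  have eR' : (((pc1 Q.P Q.P.n1 7 C j).r : ℤ) : ℝ) = Q.P.D * fld C (8 * j + 7) := by
    simp only [pc1]; push_cast; rfl
  rw [eR] at b0
  rw [eR'] at b1
  have key := piece_comb (convex_ball (0 : ℂ) (Q.P.D * fld C (8 * j + 7))) h0 h1
    (by rw [mem_ball_zero_iff]; exact b0) (by rw [mem_ball_zero_iff]; exact b1)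
  have hA := lt_of_mul_norm hD' key
  have hB : ‖(⟨(fld C (8 * j + 1) : ℝ) + fld C (8 * j + 5), (fld C (8 * j + 2) : ℝ)⟩ : ℂ) * x2 -
      (vec (nth Q.P.dirs (fldN C (8 * j)))).2‖ ≤ fld C (8 * j + 6) := b2
  refine goodH_of hs0 rfl rfl ?_
  have hw' : (Q.P.wd : ℝ) * fld C (8 * j + 6) + Q.P.wn * fld C (8 * j + 7) ≤
    Q.P.wd * fld C (8 * j + 1) := by exact_mod_cast hw
  have hW : (Q.P.wn / Q.P.wd : ℝ) * fld C (8 * j + 7) + fld C (8 * j + 6) ≤ fld C (8 * j + 1) := by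
    rw [div_mul_eq_mul_div, div_add' _ _ _ hwd'.ne', div_le_iff₀ hwd']
    linarith
  have hWA := mul_lt_mul_of_pos_left hA (div_pos hwn' hwd')
  refine lt_of_lt_of_le (add_lt_add_of_lt_of_le hWA hB) hW

/-- the statement is invariant under the change of sign -/
theorem unrotH {dirs : List (ℤ × ℤ × ℤ × ℤ)} (hD : ∀ d ∈ dirs, rot (rot d) ∈ dirs)
    {c3 c4 fs W k : ℝ} {x1 x2 : ℂ} (h : GoodH dirs c3 c4 fs W k (-x1) (-x2)) :
    GoodH dirs c3 c4 fs W k x1 x2 := by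
  obtain ⟨d, hd, l, w, p, q, s, hp, hq, hs, hf, h⟩ := h
  refine ⟨rot (rot d), hD d hd, l, w, p, q, s, hp, hq, hs, hf, ?_⟩
  have e0 : vec (rot (rot d)) = (-(vec d).1, -(vec d).2) := by
    rw [vec_rot, vec_rot]
    refine Prod.ext ?_ ?_
    · show I * (I * (vec d).1) = -(vec d).1
      linear_combination (vec d).1 * I_mul_I
    · show I * (I * (vec d).2) = -(vec d).2
      linear_combination (vec d).2 * I_mul_I
  rw [e0]
  have e : ∀ m x u : ℂ, ‖m * x - -u‖ = ‖m * (-x) - u‖ := by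
    intro m x u
    have : m * x - -u = -(m * (-x) - u) := by ring
    rw [this, norm_neg]
  simpa only [e] using h

theorem scaleH {dirs : List (ℤ × ℤ × ℤ × ℤ)} {c3 c4 fs W k : ℝ} (hW : 0 ≤ W) {x1 x2 : ℂ} {t : ℝ}
    (ht : 0 < t) (ht1 : t ≤ 1) (h : GoodH dirs c3 c4 fs W k (x1 / t) (x2 / t)) :
    GoodH dirs c3 c4 fs W k x1 x2 := by
  obtain ⟨d, hd, l, w, p, q, s, hp, hq, hs, hf, h⟩ := h
  have ht' : (t : ℂ) ≠ 0 := by exact_mod_cast ht.ne'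
  refine ⟨d, hd, l / t, w / t, p / t, q / t, s / t, div_nonneg hp ht.le, ?_, div_nonneg hs ht.le,
    fun h0 => by rw [hf h0, zero_div], ?_⟩
  · rw [div_pow, div_pow, ← mul_div_assoc, ← mul_div_assoc]
    exact div_le_div_of_nonneg_right hq (by positivity)
  · have e1 : (⟨l / t + p / t, k * (w / t) + q / t⟩ : ℂ) = (⟨l + p, k * w + q⟩ : ℂ) / t := by
      apply Complex.ext
      · rw [Complex.div_ofReal_re]; ring
      · rw [Complex.div_ofReal_im]; ring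
    have e2 : (⟨l / t + s / t, w / t⟩ : ℂ) = (⟨l + s, w⟩ : ℂ) / t := by
      apply Complex.ext
      · rw [Complex.div_ofReal_re]; ring
      · rw [Complex.div_ofReal_im]
    have e3 : ∀ m x : ℂ, m / t * x = m * (x / t) := by intro m x; ring
    rw [e1, e2, e3, e3]
    have hl : 0 ≤ l := le_trans (by positivity) h.le
    refine lt_of_lt_of_le h ?_
    rw [le_div_iff₀ ht]
    nlinarith

theorem zeroH {dirs : List (ℤ × ℤ × ℤ × ℤ)} (hne : dirs ≠ []) {c3 c4 fs W k : ℝ} :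
    GoodH dirs c3 c4 fs W k 0 0 := by
  obtain ⟨d, hd⟩ := List.exists_mem_of_ne_nil dirs hne
  refine ⟨d, hd, W * ‖(vec d).1‖ + ‖(vec d).2‖ + 1, 0, 0, 0, 0, le_rfl, by simp, le_rfl,
    fun _ => rfl, ?_⟩
  simp

/-- the arcs of the upper half plane, with the whole disc -/
theorem halfdisc {fa fd : ℕ → ℕ → List Pc} {side : ℕ → ℕ → Bool} {l : List ArcD}
    (hne : l ≠ []) (hl : allArc l (arcOK fa fd side 0) = true) (hch : chainOK 128 0 l = true)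
    {z w : ℂ} (h1 : ‖z‖ = 1) (him : 0 ≤ z.im) (h2 : ‖w‖ ≤ 1) :
    Hit fa fd side z.re z.im w.re w.im := by
  have hn1 : z.re ^ 2 + z.im ^ 2 = 1 := by
    have := Complex.sq_norm z
    rw [h1, Complex.normSq_apply] at this
    nlinarith
  have hn2 : w.re ^ 2 + w.im ^ 2 ≤ 1 := by
    have := Complex.sq_norm w
    rw [Complex.normSq_apply] at this
    have h3 : ‖w‖ ^ 2 ≤ 1 := by nlinarith [norm_nonneg w]
    nlinarith
  have hw : |w.im| ≤ 1 := (Complex.abs_im_le_norm w).trans h2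
  rw [abs_le] at hw
  refine chain_hit hn1 ?_ hn2 (by push_cast; linarith) l 0 hne hl hch ?_
  · rw [ptB_128, ptA_128]; nlinarith
  · rw [ptB_0, ptA_0]; nlinarith

/-- the cheap part of the check of a cell -/
def cellHK (Q : PB) (l1 l2 : List ArcD) : Bool :=
  and (decide (0 < Q.P.D)) (and (decide (0 < Q.P.wd)) (and (decide (0 < Q.P.wn))
    (and (decide (Q.P.dirs ≠ [])) (and (decide (∀ d ∈ Q.P.dirs, rot (rot d) ∈ Q.P.dirs))
      (and (and (!l1.isEmpty) (!l2.isEmpty)) (and (chainOK 128 0 l1) (chainOK 128 0 l2)))))))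

/-- **the covering of a cell** -/
theorem cellH {Q : PB} {l1 l2 : List ArcD} (hc : cellHK Q l1 l2 = true)
    (h1 : allArc l1 (arcOK (fa1 Q.P) (fd1 Q.P) (side1 Q) 0) = true)
    (h2 : allArc l2 (arcOK (fa2 Q.P) (fd2 Q.P) (side2 Q) 0) = true) {k : ℝ}
    (hk0 : (Q.P.n0 : ℝ) ≤ k * Q.P.D) (hk1 : k * Q.P.D ≤ Q.P.n1) (x1 x2 : ℂ) (hx1 : ‖x1‖ ≤ 1)
    (hx2 : ‖x2‖ ≤ 1) : GoodH Q.P.dirs Q.P.c3 Q.c4 Q.P.fs (Q.P.wn / Q.P.wd) k x1 x2 := by
  simp only [cellHK, Bool.and_eq_true, decide_eq_true_eq, Bool.not_eq_true',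
    List.isEmpty_eq_false_iff] at hc
  obtain ⟨hD, hwd, hwn, hne, hrot, ⟨hn1, hn2⟩, hc1, hc2⟩ := hc
  have hW : (0 : ℝ) ≤ (Q.P.wn / Q.P.wd : ℝ) := by
    have h3 : (0 : ℝ) ≤ Q.P.wn := by exact_mod_cast hwn.le
    have h4 : (0 : ℝ) ≤ Q.P.wd := by exact_mod_cast hwd.le
    exact div_nonneg h3 h4
  refine to_faces (G := fun x1 x2 => GoodH Q.P.dirs Q.P.c3 Q.c4 Q.P.fs (Q.P.wn / Q.P.wd) k x1 x2)
    (zeroH hne) (fun x1 x2 t ht ht1 h => scaleH hW ht ht1 h) ?_ ?_ x1 x2 hx1 hx2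
  · intro x1 x2 hx1 hx2
    show GoodH Q.P.dirs Q.P.c3 Q.c4 Q.P.fs (Q.P.wn / Q.P.wd) k x1 x2
    rcases le_total 0 x1.im with hi | hi
    · exact goodH1 hD hwd hwn hk0 hk1 (halfdisc hn1 h1 hc1 hx1 hi hx2)
    · refine unrotH hrot (goodH1 hD hwd hwn hk0 hk1 (halfdisc hn1 h1 hc1 ?_ ?_ ?_))
      · rw [norm_neg]; exact hx1
      · rw [Complex.neg_im]; linarith
      · rw [norm_neg]; exact hx2
  · intro x1 x2 hx1 hx2
    show GoodH Q.P.dirs Q.P.c3 Q.c4 Q.P.fs (Q.P.wn / Q.P.wd) k x1 x2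
    rcases le_total 0 x2.im with hi | hi
    · exact goodH2 hD hwd hwn hk0 hk1 (halfdisc hn2 h2 hc2 hx2 hi hx1)
    · refine unrotH hrot (goodH2 hD hwd hwn hk0 hk1 (halfdisc hn2 h2 hc2 ?_ ?_ ?_))
      · rw [norm_neg]; exact hx2
      · rw [Complex.neg_im]; linarith
      · rw [norm_neg]; exact hx1

/-- the statement is invariant under the multiplication by `(i, -1)` -/
theorem turnC {dirs dirs2 : List (ℤ × ℤ × ℤ × ℤ)} (hD : ∀ d ∈ dirs, rotC d ∈ dirs2)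
    {W r : ℝ} {x1 x2 : ℂ} (h : GoodC dirs W r (-I * x1) (-x2)) : GoodC dirs2 W r x1 x2 := by
  obtain ⟨d, hd, l, w, b1, b2, a, e1, e2, z, hb1, hb2, ha, he1, he2, hz, h⟩ := h
  refine ⟨rotC d, hD d hd, l, w, b1, b2, a, e1, e2, I * z, hb1, hb2, ha, he1, he2, ?_, ?_⟩
  · rw [norm_mul, norm_I, one_mul]; exact hz
  · rw [vec_rotC]
    have k1 : ((⟨l, w / 2⟩ : ℂ) + b1 * (1 - e1) + b2 * (1 - e2)) * x1 - a * (I * z) -
        I * (vec d).1 = I * (((⟨l, w / 2⟩ : ℂ) + b1 * (1 - e1) + b2 * (1 - e2)) * (-I * x1) -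
          a * z - (vec d).1) := by
      linear_combination (((⟨l, w / 2⟩ : ℂ) + b1 * (1 - e1) + b2 * (1 - e2)) * x1) * I_mul_I
    have k2 : ((⟨l, w⟩ : ℂ) + b1 * (1 - e1 ^ 2) + b2 * (1 - e2 ^ 2)) * x2 -
        r * a * (I * z) ^ 2 - (-(vec d).2) =
        -(((⟨l, w⟩ : ℂ) + b1 * (1 - e1 ^ 2) + b2 * (1 - e2 ^ 2)) * (-x2) - r * a * z ^ 2 -
          (vec d).2) := by
      linear_combination (-(r * a * z ^ 2) : ℂ) * I_mul_I
    show W * ‖((⟨l, w / 2⟩ : ℂ) + b1 * (1 - e1) + b2 * (1 - e2)) * x1 - a * (I * z) -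
        I * (vec d).1‖ + ‖((⟨l, w⟩ : ℂ) + b1 * (1 - e1 ^ 2) + b2 * (1 - e2 ^ 2)) * x2 -
        r * a * (I * z) ^ 2 - (-(vec d).2)‖ + a < l
    rw [k1, k2, norm_mul, norm_I, one_mul, norm_neg]
    exact h

/-- the cheap part of the check of a cell for the weight `1/2`; `R` are the turned directions -/
def cellCH (P R : PA) (l1 l2 l3 : List ArcD) : Bool :=
  and (decide (0 < P.D)) (and (decide (0 < P.wd)) (and (decide (0 < P.wn))
    (and (decide (P.dirs ≠ [])) (and (decide (∀ d ∈ P.dirs, rotC (rotC d) ∈ P.dirs))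
      (and (and (decide (∀ d ∈ R.dirs, rotC d ∈ P.dirs))
        (decide (∀ d ∈ R.dirs, rotC (rotC d) ∈ R.dirs)))
        (and (and (decide (R.D = P.D)) (and (decide (R.n0 = P.n0)) (and (decide (R.n1 = P.n1))
          (and (decide (R.wn = P.wn)) (decide (R.wd = P.wd))))))
      (and (and (!l1.isEmpty) (and (!l2.isEmpty) (!l3.isEmpty)))
        (and (chainOK 128 0 l1) (and (chainOK 128 0 l2) (chainOK 128 0 l3))))))))))

/-- **the covering of a cell for the weight `1/2`** -/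
theorem cellC2 {P R : PA} {l1 l2 l3 : List ArcD} (hc : cellCH P R l1 l2 l3 = true)
    (h1 : allArc l1 (arcOK (ga1 P) (gd1 P) (sidc1 P) 0) = true)
    (h2 : allArc l2 (arcOK (ga2 P) (gd2 P) (sidc2 P) 1) = true)
    (h3 : allArc l3 (arcOK (ga2 R) (gd2 R) (sidc2 R) 1) = true) {r : ℝ}
    (hk0 : (P.n0 : ℝ) ≤ r * P.D) (hk1 : r * P.D ≤ P.n1) (x1 x2 : ℂ) (hx1 : ‖x1‖ ≤ 1)
    (hx2 : ‖x2‖ ≤ 1) : GoodC P.dirs (P.wn / P.wd) r x1 x2 := by
  simp only [cellCH, Bool.and_eq_true, decide_eq_true_eq, Bool.not_eq_true',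
    List.isEmpty_eq_false_iff] at hc
  obtain ⟨hD, hwd, hwn, hne, hrot, ⟨hR, hR2⟩, ⟨eD, e0, e1, ewn, ewd⟩, ⟨hn1, hn2, hn3⟩, hc1, hc2,
    hc3⟩ := hc
  have hW : (0 : ℝ) ≤ (P.wn / P.wd : ℝ) := by
    have h3 : (0 : ℝ) ≤ P.wn := by exact_mod_cast hwn.le
    have h4 : (0 : ℝ) ≤ P.wd := by exact_mod_cast hwd.le
    exact div_nonneg h3 h4
  have n1 : ∀ z : ℂ, ‖-I * z‖ = ‖z‖ := by intro z; rw [norm_mul, norm_neg, norm_I, one_mul]
  -- the change of sign of the first coordinate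
  have ur : ∀ {dirs : List (ℤ × ℤ × ℤ × ℤ)}, (∀ d ∈ dirs, rotC (rotC d) ∈ dirs) →
      ∀ {W : ℝ} {x1 x2 : ℂ}, GoodC dirs W r (-x1) x2 → GoodC dirs W r x1 x2 := by
    intro dirs hd W x1 x2 h
    have hmap : ∀ d ∈ dirs.map rotC, rotC d ∈ dirs := by
      intro d hd'
      obtain ⟨e, he, rfl⟩ := List.mem_map.1 hd'
      exact hd e he
    have step : ∀ {d1 d2 : List (ℤ × ℤ × ℤ × ℤ)}, (∀ d ∈ d1, rotC d ∈ d2) → ∀ {x1 x2 : ℂ},
        GoodC d1 W r (-I * x1) (-x2) → GoodC d2 W r x1 x2 := by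
      intro d1 d2 h12 x1 x2 h
      exact turnC h12 h
    have h4 : GoodC (dirs.map rotC) W r (-I * x1) (-x2) := by
      refine step (d1 := dirs) (fun d hd => List.mem_map_of_mem hd) ?_
      have e1 : -I * (-I * x1) = -x1 := by linear_combination x1 * I_mul_I
      rw [e1, neg_neg]
      exact h
    exact step hmap h4
  refine to_faces (G := fun x1 x2 => GoodC P.dirs (P.wn / P.wd) r x1 x2) (zeroC hne)
    (fun x1 x2 t ht ht1 h => scaleC hW ht ht1 h) ?_ ?_ x1 x2 hx1 hx2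
  · intro x1 x2 hx1 hx2
    show GoodC P.dirs (P.wn / P.wd) r x1 x2
    rcases le_total 0 x1.im with hi | hi
    · exact goodC1 hD hwd hwn hk0 hk1 (halfdisc hn1 h1 hc1 hx1 hi hx2)
    · refine ur hrot (goodC1 hD hwd hwn hk0 hk1 (halfdisc hn1 h1 hc1 ?_ ?_ hx2))
      · rw [norm_neg]; exact hx1
      · rw [Complex.neg_im]; linarith
  · intro x1 x2 hx1 hx2
    show GoodC P.dirs (P.wn / P.wd) r x1 x2
    -- upper half plane, directions `P`
    have base : ∀ x1 x2 : ℂ, ‖x1‖ ≤ 1 → ‖x2‖ = 1 → 0 ≤ x2.im →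
        GoodC P.dirs (P.wn / P.wd) r x1 x2 := by
      intro x1 x2 hx1 hx2 h2im
      rcases le_total 0 x1.im with hi | hi
      · exact goodC2 hD hwd hwn hk0 hk1 (halfplane hn2 h2 hc2 hx2 h2im hx1 hi)
      · refine ur hrot (goodC2 hD hwd hwn hk0 hk1 (halfplane hn2 h2 hc2 hx2 h2im ?_ ?_))
        · rw [norm_neg]; exact hx1
        · rw [Complex.neg_im]; linarith
    have base' : ∀ x1 x2 : ℂ, ‖x1‖ ≤ 1 → ‖x2‖ = 1 → 0 ≤ x2.im →
        GoodC R.dirs (R.wn / R.wd) r x1 x2 := by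
      have hD' : 0 < R.D := by rw [eD]; exact hD
      have hwd' : 0 < R.wd := by rw [ewd]; exact hwd
      have hwn' : 0 < R.wn := by rw [ewn]; exact hwn
      have hk0' : (R.n0 : ℝ) ≤ r * R.D := by rw [e0, eD]; exact hk0
      have hk1' : r * R.D ≤ R.n1 := by rw [e1, eD]; exact hk1
      intro x1 x2 hx1 hx2 h2im
      rcases le_total 0 x1.im with hi | hi
      · exact goodC2 hD' hwd' hwn' hk0' hk1' (halfplane hn3 h3 hc3 hx2 h2im hx1 hi)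
      · refine ur hR2 (goodC2 hD' hwd' hwn' hk0' hk1' (halfplane hn3 h3 hc3 hx2 h2im ?_ ?_))
        · rw [norm_neg]; exact hx1
        · rw [Complex.neg_im]; linarith
    rcases le_total 0 x2.im with hi | hi
    · exact base x1 x2 hx1 hx2 hi
    · have h4 := base' (-I * x1) (-x2) (by rw [n1]; exact hx1) (by rw [norm_neg]; exact hx2)
        (by rw [Complex.neg_im]; linarith)
      rw [ewn, ewd] at h4
      exact turnC hR h4

end Pool.Agent.Zk84.M4
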