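import Pool.Agent.Zk84.M4.FamS

/-!
Cells with one more parameter, for the weight `1`.

The fields of a certificate are `g`, `l`, `w`, `p`, `-`, `-`, `s`, `-`, `-`, `a`, `zp`, `zq`, `A`,
`B`.
-/

set_option autoImplicit false

namespace Pool.Agent.Zk84.M4

open Complex
open Pool.Agent.Zk84.HC (rot vec vec_rot norm_le_of_sq norm_lt_of_sq)
open Pool.Agent.Zk84.M3

/-- a point is illuminated by one of the directions, with the factor `β` -/
def GoodK (dirs : List (ℤ × ℤ × ℤ × ℤ)) (κ β : ℝ) (x1 x2 : ℂ) : Prop :=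
  ∃ d ∈ dirs, ∃ l w p s a : ℝ, ∃ z : ℂ, 0 ≤ p ∧ 0 ≤ s ∧ 0 ≤ a ∧ ‖z‖ ≤ 1 ∧
    ‖(⟨l + p, w⟩ : ℂ) * x1 - a * z - (vec d).1‖ +
      ‖(⟨l + s, w⟩ : ℂ) * x2 - a * z - (vec d).2‖ + κ * a < l * β

/-- the piece for the first coordinate, with the factor `512` -/
def pkx (P : PA) (R C j : ℕ) : Pc :=
  ⟨512 * (fld C (14 * j + 1) + fld C (14 * j + 3)), 512 * fld C (14 * j + 2),
    fld C (14 * j + 9) * fld C (14 * j + 10) + 512 * (nth P.dirs (fldN C (14 * j))).1,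
    fld C (14 * j + 9) * fld C (14 * j + 11) + 512 * (nth P.dirs (fldN C (14 * j))).2.1,
    512 * fld C (14 * j + R)⟩

/-- the piece for the second coordinate, with the factor `512` -/
def pky (P : PA) (R C j : ℕ) : Pc :=
  ⟨512 * (fld C (14 * j + 1) + fld C (14 * j + 6)), 512 * fld C (14 * j + 2),
    fld C (14 * j + 9) * fld C (14 * j + 10) + 512 * (nth P.dirs (fldN C (14 * j))).2.2.1,
    fld C (14 * j + 9) * fld C (14 * j + 11) + 512 * (nth P.dirs (fldN C (14 * j))).2.2.2,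
    512 * fld C (14 * j + R)⟩

/-- the common side conditions -/
def sidk0 (P : PA) (C j : ℕ) : Bool :=
  and (Nat.blt (fldN C (14 * j)) P.dirs.length) (and (decide (0 ≤ fld C (14 * j + 3)))
    (and (decide (0 ≤ fld C (14 * j + 6))) (and (decide (0 ≤ fld C (14 * j + 9)))
      (decide (fld C (14 * j + 10) * fld C (14 * j + 10) +
        fld C (14 * j + 11) * fld C (14 * j + 11) ≤ 262144)))))

/-- the pieces on the arc, the first face -/
def ka1 (Q : PS) (C j : ℕ) : List Pc := [pkx Q.P 12 C j]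

/-- the pieces on the disc, the first face -/
def kd1 (Q : PS) (C j : ℕ) : List Pc := [pky Q.P 13 C j]

/-- the pieces on the arc, the second face -/
def ka2 (Q : PS) (C j : ℕ) : List Pc := [pky Q.P 12 C j]

/-- the pieces on the disc, the second face -/
def kd2 (Q : PS) (C j : ℕ) : List Pc := [pkx Q.P 13 C j]

/-- the side conditions, the first face -/
def sidk1 (Q : PS) (C j : ℕ) : Bool := and (sidk0 Q.P C j) (inq1 Q C j)

/-- the side conditions, the second face -/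
def sidk2 (Q : PS) (C j : ℕ) : Bool := and (sidk0 Q.P C j) (inq2 Q C j)

/-- the value of the first coordinate -/
noncomputable def wx (P : PA) (C j : ℕ) (x : ℂ) : ℂ :=
  (⟨(fld C (14 * j + 1) : ℝ) + fld C (14 * j + 3), fld C (14 * j + 2)⟩ : ℂ) * x -
    ((fld C (14 * j + 9) : ℝ) : ℂ) * pz (fld C (14 * j + 10)) (fld C (14 * j + 11)) -
    (vec (nth P.dirs (fldN C (14 * j)))).1

/-- the value of the second coordinate -/
noncomputable def wy (P : PA) (C j : ℕ) (x : ℂ) : ℂ :=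
  (⟨(fld C (14 * j + 1) : ℝ) + fld C (14 * j + 6), fld C (14 * j + 2)⟩ : ℂ) * x -
    ((fld C (14 * j + 9) : ℝ) : ℂ) * pz (fld C (14 * j + 10)) (fld C (14 * j + 11)) -
    (vec (nth P.dirs (fldN C (14 * j)))).2

theorem alg_k (l p w a zp zq u v : ℝ) (x : ℂ) :
    (⟨512 * (l + p), 512 * w⟩ : ℂ) * x - ⟨a * zp + 512 * u, a * zq + 512 * v⟩ =
    ((512 : ℝ) : ℂ) * ((⟨l + p, w⟩ : ℂ) * x - (a : ℂ) * ⟨zp / 512, zq / 512⟩ - ⟨u, v⟩) := by
  apply Complex.ext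
  · simp only [Complex.mul_re, Complex.sub_re, Complex.ofReal_re,
      Complex.ofReal_im, Complex.mul_im, Complex.sub_im]
    ring
  · simp only [Complex.mul_re, Complex.sub_re, Complex.ofReal_re,
      Complex.ofReal_im, Complex.mul_im, Complex.sub_im]
    ring

theorem cz_pkx (P : PA) (R C j : ℕ) (x : ℂ) :
    cz (pkx P R C j) x = ((512 : ℝ) : ℂ) * wx P C j x := by
  simp only [cz, pkx, wx, vec, pz]
  rw [← alg_k]
  push_cast
  rfl

theorem cz_pky (P : PA) (R C j : ℕ) (x : ℂ) :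
    cz (pky P R C j) x = ((512 : ℝ) : ℂ) * wy P C j x := by
  simp only [cz, pky, wy, vec, pz]
  rw [← alg_k]
  push_cast
  rfl

theorem goodK_of {P : PA} {x1 x2 : ℂ} {C j : ℕ} (h0 : sidk0 P C j = true) {κ β : ℝ}
    (hlt : ‖wx P C j x1‖ + ‖wy P C j x2‖ + κ * fld C (14 * j + 9) <
      fld C (14 * j + 1) * β) : GoodK P.dirs κ β x1 x2 := by
  simp only [sidk0, Bool.and_eq_true, decide_eq_true_eq] at h0
  obtain ⟨hg, hb1, hb2, ha, hz⟩ := h0
  have hg' : fldN C (14 * j) < P.dirs.length := Nat.le_of_ble_eq_true hg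
  exact ⟨nth P.dirs (fldN C (14 * j)), nth_mem _ _ hg', fld C (14 * j + 1), fld C (14 * j + 2),
    fld C (14 * j + 3), fld C (14 * j + 6), fld C (14 * j + 9),
    pz (fld C (14 * j + 10)) (fld C (14 * j + 11)), by exact_mod_cast hb1, by exact_mod_cast hb2,
    by exact_mod_cast ha, pz_norm hz, hlt⟩

theorem goodK1 {Q : PS} (hcd : 0 < Q.cd) (hkd : 0 < Q.kd) (hwd : Q.P.wd = 1)
    (hwn : Q.P.wn = 1) {x1 x2 : ℂ}
    (h : Hit2 (ka1 Q) (kd1 Q) ex0 (sidk1 Q) x1.re x1.im x2.re x2.im) :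
    ∃ β : ℝ, Fac 1 (Q.cn / Q.cd) β ‖x2‖ ∧ GoodK Q.P.dirs (Q.kn / Q.kd) β x1 x2 := by
  obtain ⟨C, j, hs, hrd, ha, hd⟩ := h
  simp only [sidk1, Bool.and_eq_true] at hs
  obtain ⟨hs0, hw⟩ := hs
  have a0 := ha (pkx Q.P 12 C j) (by simp [ka1])
  have d0 := hd (pky Q.P 13 C j) (by simp [kd1, kd2])
  have b0 := cz_le a0.1 a0.2
  have b1 := cz_lt d0.1 d0.2
  rw [cz_pkx] at b0
  rw [cz_pky] at b1
  have eR : (((pkx Q.P 12 C j).r : ℤ) : ℝ) = 512 * fld C (14 * j + 12) := by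
    simp only [pkx]; push_cast; rfl
  have eR0 : (((pky Q.P 13 C j).r : ℤ) : ℝ) = 512 * fld C (14 * j + 13) := by
    simp only [pky]; push_cast; rfl
  rw [eR] at b0
  rw [eR0] at b1
  have hB := lt_of_mul_norm (D := 512) (by norm_num) (by rw [mem_ball_zero_iff]; exact b1)
  have hA := le_of_mul_norm (D := 512) (by norm_num)
    (by rw [mem_closedBall_zero_iff]; exact b0)
  obtain ⟨β, hβ, hle⟩ := inq1_real hcd hkd (by rw [hwd]; norm_num) hw hrd
  refine ⟨β, hβ, goodK_of hs0 ?_⟩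
  rw [hwn, hwd] at hle
  push_cast at hle
  linarith

theorem goodK2 {Q : PS} (hcd : 0 < Q.cd) (hkd : 0 < Q.kd) (hwd : Q.P.wd = 1)
    (hwn : Q.P.wn = 1) {x1 x2 : ℂ}
    (h : Hit2 (ka2 Q) (kd2 Q) ex0 (sidk2 Q) x2.re x2.im x1.re x1.im) :
    ∃ β : ℝ, Fac 1 (Q.cn / Q.cd) β ‖x1‖ ∧ GoodK Q.P.dirs (Q.kn / Q.kd) β x1 x2 := by
  obtain ⟨C, j, hs, hrd, ha, hd⟩ := h
  simp only [sidk2, Bool.and_eq_true] at hs
  obtain ⟨hs0, hw⟩ := hs
  have a0 := ha (pky Q.P 12 C j) (by simp [ka2])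
  have d0 := hd (pkx Q.P 13 C j) (by simp [kd1, kd2])
  have b0 := cz_le a0.1 a0.2
  have b1 := cz_lt d0.1 d0.2
  rw [cz_pky] at b0
  rw [cz_pkx] at b1
  have eR : (((pky Q.P 12 C j).r : ℤ) : ℝ) = 512 * fld C (14 * j + 12) := by
    simp only [pky]; push_cast; rfl
  have eR0 : (((pkx Q.P 13 C j).r : ℤ) : ℝ) = 512 * fld C (14 * j + 13) := by
    simp only [pkx]; push_cast; rfl
  rw [eR] at b0
  rw [eR0] at b1
  have hB := lt_of_mul_norm (D := 512) (by norm_num) (by rw [mem_ball_zero_iff]; exact b1)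
  have hA := le_of_mul_norm (D := 512) (by norm_num)
    (by rw [mem_closedBall_zero_iff]; exact b0)
  obtain ⟨β, hβ, hle⟩ := inq2_real hcd hkd (by rw [hwd]; norm_num) hw hrd
  have e1 : ((Q.P.wn : ℝ) / Q.P.wd) = 1 := by rw [hwn, hwd]; norm_num
  rw [e1] at hβ hle
  refine ⟨β, hβ, goodK_of hs0 ?_⟩
  linarith

/-- the statement is invariant under the change of sign -/
theorem signK {dirs : List (ℤ × ℤ × ℤ × ℤ)} (hD : ∀ d ∈ dirs, rot (rot d) ∈ dirs)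
    {κ β : ℝ} {x1 x2 : ℂ} (h : GoodK dirs κ β (-x1) (-x2)) : GoodK dirs κ β x1 x2 := by
  obtain ⟨d, hd, l, w, p, s, a, z, hp, hs, ha, hz, h⟩ := h
  refine ⟨rot (rot d), hD d hd, l, w, p, s, a, -z, hp, hs, ha, by rw [norm_neg]; exact hz, ?_⟩
  have e0 : vec (rot (rot d)) = (-(vec d).1, -(vec d).2) := by
    rw [vec_rot, vec_rot]
    refine Prod.ext ?_ ?_
    · show I * (I * (vec d).1) = -(vec d).1
      linear_combination (vec d).1 * I_mul_I
    · show I * (I * (vec d).2) = -(vec d).2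
      linear_combination (vec d).2 * I_mul_I
  rw [e0]
  have e : ∀ m x u : ℂ, ‖m * x - a * (-z) - -u‖ = ‖m * (-x) - a * z - u‖ := by
    intro m x u
    have : m * x - a * (-z) - -u = -(m * (-x) - a * z - u) := by ring
    rw [this, norm_neg]
  simpa only [e] using h

theorem scaleK {dirs : List (ℤ × ℤ × ℤ × ℤ)} {κ β : ℝ} (hκ : 0 ≤ κ)
    {x1 x2 : ℂ} {t : ℝ} (ht : 0 < t) (hβ : 0 < β) (ht1 : t * β ≤ 1)
    (h : GoodK dirs κ β (x1 / t) (x2 / t)) : GoodK dirs κ 1 x1 x2 := by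
  obtain ⟨d, hd, l, w, p, s, a, z, hp, hs, ha, hz, h⟩ := h
  have ht' : (t : ℂ) ≠ 0 := by exact_mod_cast ht.ne'
  refine ⟨d, hd, l / t, w / t, p / t, s / t, a, z, div_nonneg hp ht.le,
    div_nonneg hs ht.le, ha, hz, ?_⟩
  have e1 : ∀ v : ℝ, (⟨l / t + v / t, w / t⟩ : ℂ) = (⟨l + v, w⟩ : ℂ) / t := by
    intro v
    apply Complex.ext
    · rw [Complex.div_ofReal_re]; ring
    · rw [Complex.div_ofReal_im]
  have e3 : ∀ m x : ℂ, m / t * x = m * (x / t) := by intro m x; ring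
  rw [e1, e1, e3, e3]
  have hlβ : 0 ≤ l * β := le_trans (by positivity) h.le
  have hl : 0 ≤ l := by
    by_contra hneg
    push Not at hneg
    nlinarith [mul_pos hβ (neg_pos.2 hneg)]
  refine lt_of_lt_of_le h ?_
  rw [mul_one, le_div_iff₀ ht]
  nlinarith

theorem zeroK {dirs : List (ℤ × ℤ × ℤ × ℤ)} (hne : dirs ≠ []) {κ : ℝ} :
    GoodK dirs κ 1 0 0 := by
  obtain ⟨d, hd⟩ := List.exists_mem_of_ne_nil dirs hne
  refine ⟨d, hd, ‖(vec d).1‖ + ‖(vec d).2‖ + 1, 0, 0, 0, 0, 0, le_rfl, le_rfl, le_rfl,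
    by simp, ?_⟩
  simp

/-- the cheap part of the check of a cell -/
def cellKK (Q : PS) (l1 l2 : List ArcD) : Bool :=
  and (and (decide (0 < Q.cd)) (and (decide (0 < Q.kd)) (decide (0 ≤ Q.kn))))
    (and (decide (Q.P.wd = 1)) (and (decide (Q.P.wn = 1))
    (and (decide (Q.P.dirs ≠ [])) (and (decide (∀ d ∈ Q.P.dirs, rot (rot d) ∈ Q.P.dirs))
      (and (and (!l1.isEmpty) (!l2.isEmpty)) (and (chainOK 128 0 l1) (chainOK 128 0 l2)))))))

/-- **the covering of a cell** -/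
theorem cellK {Q : PS} {l1 l2 : List ArcD} (hc : cellKK Q l1 l2 = true)
    (h1 : allArc l1 (arcOK2 (ka1 Q) (kd1 Q) ex0 (sidk1 Q) 0) = true)
    (h2 : allArc l2 (arcOK2 (ka2 Q) (kd2 Q) ex0 (sidk2 Q) 0) = true) (x1 x2 : ℂ)
    (hx : Dom 1 (Q.cn / Q.cd) x1 x2) : GoodK Q.P.dirs (Q.kn / Q.kd) 1 x1 x2 := by
  simp only [cellKK, Bool.and_eq_true, decide_eq_true_eq, Bool.not_eq_true',
    List.isEmpty_eq_false_iff] at hc
  obtain ⟨⟨hcd, hkd, hkn⟩, hwd, hwn, hne, hrot, ⟨hn1, hn2⟩, hc1, hc2⟩ := hc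
  have hκ : (0 : ℝ) ≤ (Q.kn / Q.kd : ℝ) := by
    have h3 : (0 : ℝ) ≤ Q.kn := by exact_mod_cast hkn
    have h4 : (0 : ℝ) ≤ Q.kd := by exact_mod_cast hkd.le
    exact div_nonneg h3 h4
  refine to_facesF (G := fun β x1 x2 => GoodK Q.P.dirs (Q.kn / Q.kd) β x1 x2)
    (zeroK hne) (fun β x1 x2 t ht hβ ht1 h => scaleK hκ ht hβ ht1 h) ?_ ?_ zero_le_one x1 x2 hx
  · intro x1 x2 hx1 hx2
    rcases le_total 0 x1.im with hi | hi
    · exact goodK1 hcd hkd hwd hwn (halfdisc2 hn1 h1 hc1 hx1 hi hx2)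
    · obtain ⟨β, hβ, hg⟩ := goodK1 (x1 := -x1) (x2 := -x2) hcd hkd hwd hwn
        (halfdisc2 hn1 h1 hc1 (by rw [norm_neg]; exact hx1) (by rw [Complex.neg_im]; linarith)
          (by rw [norm_neg]; exact hx2))
      rw [norm_neg] at hβ
      exact ⟨β, hβ, signK hrot hg⟩
  · intro x1 x2 hx1 hx2
    rcases le_total 0 x2.im with hi | hi
    · exact goodK2 hcd hkd hwd hwn (halfdisc2 hn2 h2 hc2 hx2 hi hx1)
    · obtain ⟨β, hβ, hg⟩ := goodK2 (x1 := -x1) (x2 := -x2) hcd hkd hwd hwn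
        (halfdisc2 hn2 h2 hc2 (by rw [norm_neg]; exact hx2) (by rw [Complex.neg_im]; linarith)
          (by rw [norm_neg]; exact hx1))
      rw [norm_neg] at hβ
      exact ⟨β, hβ, signK hrot hg⟩

end Pool.Agent.Zk84.M4
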