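import Pool.Agent.Zk84.M4.FamH

/-!
Cells for the weight `1/2` without symmetry of the directions.
-/

set_option autoImplicit false

namespace Pool.Agent.Zk84.M4

open Complex
open Pool.Agent.Zk84.HC (rot vec vec_rot norm_le_of_sq norm_lt_of_sq)
open Pool.Agent.Zk84.M3

/-- the same parameters, apart from the directions -/
def sameP (P Q : PA) : Bool :=
  and (decide (Q.D = P.D)) (and (decide (Q.n0 = P.n0)) (and (decide (Q.n1 = P.n1))
    (and (decide (Q.wn = P.wn)) (decide (Q.wd = P.wd)))))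

/-- the cheap part of the check of a cell; `Q`, `R` are the turned directions -/
def cellCN (P Q R : PA) (l1 l4 l2 l3 : List ArcD) : Bool :=
  and (decide (0 < P.D)) (and (decide (0 < P.wd)) (and (decide (0 < P.wn))
    (and (decide (P.dirs ≠ []))
      (and (and (decide (∀ d ∈ Q.dirs, rotC (rotC d) ∈ P.dirs))
        (decide (∀ d ∈ R.dirs, rotC d ∈ P.dirs)))
        (and (and (sameP P Q) (sameP P R))
      (and (and (and (!l1.isEmpty) (!l4.isEmpty)) (and (!l2.isEmpty) (!l3.isEmpty)))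
        (and (and (chainOK 128 0 l1) (chainOK 128 0 l4))
          (and (chainOK 128 0 l2) (chainOK 128 0 l3)))))))))

/-- **the covering of a cell for the weight `1/2`** -/
theorem cellC3 {P Q R : PA} {l1 l4 l2 l3 : List ArcD} (hc : cellCN P Q R l1 l4 l2 l3 = true)
    (h1 : allArc l1 (arcOK (ga1 P) (gd1 P) (sidc1 P) 0) = true)
    (h4 : allArc l4 (arcOK (ga1 Q) (gd1 Q) (sidc1 Q) 0) = true)
    (h2 : allArc l2 (arcOK (ga2 P) (gd2 P) (sidc2 P) 0) = true)
    (h3 : allArc l3 (arcOK (ga2 R) (gd2 R) (sidc2 R) 0) = true) {r : ℝ}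
    (hk0 : (P.n0 : ℝ) ≤ r * P.D) (hk1 : r * P.D ≤ P.n1) (x1 x2 : ℂ) (hx1 : ‖x1‖ ≤ 1)
    (hx2 : ‖x2‖ ≤ 1) : GoodC P.dirs (P.wn / P.wd) r x1 x2 := by
  simp only [cellCN, sameP, Bool.and_eq_true, decide_eq_true_eq, Bool.not_eq_true',
    List.isEmpty_eq_false_iff] at hc
  obtain ⟨hD, hwd, hwn, hne, ⟨hQ, hR⟩, ⟨⟨qD, q0, q1, qwn, qwd⟩, ⟨eD, e0, e1, ewn, ewd⟩⟩,
    ⟨⟨hn1, hn4⟩, hn2, hn3⟩, ⟨hc1, hc4⟩, hc2, hc3⟩ := hc
  have hW : (0 : ℝ) ≤ (P.wn / P.wd : ℝ) := by
    have h3 : (0 : ℝ) ≤ P.wn := by exact_mod_cast hwn.le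
    have h4 : (0 : ℝ) ≤ P.wd := by exact_mod_cast hwd.le
    exact div_nonneg h3 h4
  have n1 : ∀ z : ℂ, ‖-I * z‖ = ‖z‖ := by intro z; rw [norm_mul, norm_neg, norm_I, one_mul]
  refine to_faces (G := fun x1 x2 => GoodC P.dirs (P.wn / P.wd) r x1 x2) (zeroC hne)
    (fun x1 x2 t ht ht1 h => scaleC hW ht ht1 h) ?_ ?_ x1 x2 hx1 hx2
  · intro x1 x2 hx1 hx2
    show GoodC P.dirs (P.wn / P.wd) r x1 x2
    rcases le_total 0 x1.im with hi | hi
    · exact goodC1 hD hwd hwn hk0 hk1 (halfdisc hn1 h1 hc1 hx1 hi hx2)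
    · have hD' : 0 < Q.D := by rw [qD]; exact hD
      have hwd' : 0 < Q.wd := by rw [qwd]; exact hwd
      have hwn' : 0 < Q.wn := by rw [qwn]; exact hwn
      have hk0' : (Q.n0 : ℝ) ≤ r * Q.D := by rw [q0, qD]; exact hk0
      have hk1' : r * Q.D ≤ Q.n1 := by rw [q1, qD]; exact hk1
      have h5 : GoodC Q.dirs (Q.wn / Q.wd) r (-x1) x2 :=
        goodC1 hD' hwd' hwn' hk0' hk1' (halfdisc hn4 h4 hc4 (by rw [norm_neg]; exact hx1)
          (by rw [Complex.neg_im]; linarith) hx2)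
      rw [qwn, qwd] at h5
      have hmap : ∀ d ∈ Q.dirs.map rotC, rotC d ∈ P.dirs := by
        intro d hd'
        obtain ⟨e, he, rfl⟩ := List.mem_map.1 hd'
        exact hQ e he
      refine turnC hmap (turnC (dirs := Q.dirs) (fun d hd => List.mem_map_of_mem hd) ?_)
      have e1 : -I * (-I * x1) = -x1 := by linear_combination x1 * I_mul_I
      rw [e1, neg_neg]
      exact h5
  · intro x1 x2 hx1 hx2
    show GoodC P.dirs (P.wn / P.wd) r x1 x2
    rcases le_total 0 x2.im with hi | hi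
    · exact goodC2 hD hwd hwn hk0 hk1 (halfdisc hn2 h2 hc2 hx2 hi hx1)
    · have hD' : 0 < R.D := by rw [eD]; exact hD
      have hwd' : 0 < R.wd := by rw [ewd]; exact hwd
      have hwn' : 0 < R.wn := by rw [ewn]; exact hwn
      have hk0' : (R.n0 : ℝ) ≤ r * R.D := by rw [e0, eD]; exact hk0
      have hk1' : r * R.D ≤ R.n1 := by rw [e1, eD]; exact hk1
      have h4 : GoodC R.dirs (R.wn / R.wd) r (-I * x1) (-x2) :=
        goodC2 hD' hwd' hwn' hk0' hk1' (halfdisc hn3 h3 hc3 (by rw [norm_neg]; exact hx2)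
          (by rw [Complex.neg_im]; linarith) (by rw [n1]; exact hx1))
      rw [ewn, ewd] at h4
      exact turnC hR h4

end Pool.Agent.Zk84.M4
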