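import Pool.Agent.Zk84.M4.Stm2

/-!
The selection statements with one more parameter, for the weight `1` and for the weight `1/2`.
-/

set_option autoImplicit false

namespace Pool.Agent.Zk84.M4

open Complex Set Pool.Agent.Zk76.Wt
open Pool.Agent.Zk84.M3 (Inv Body W2 W3 W4)

/-- the possible points of a body in which all points `(1, e)`, `‖e‖ = 1`, have gauge at least `c`
and the points `(w, 0)`, `‖w‖ = 1`, have gauge at most `W` -/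
def Dom (W c : ℝ) (x1 x2 : ℂ) : Prop :=
  ‖x1‖ ≤ 1 ∧ ‖x2‖ ≤ 1 ∧ (‖x2‖ ≤ ‖x1‖ → c * ‖x1‖ ≤ 1 + (‖x1‖ - ‖x2‖)) ∧
    (‖x1‖ ≤ ‖x2‖ → c * ‖x2‖ ≤ 1 + W * (‖x2‖ - ‖x1‖))

/-- the selection statement for the weight `1`, for the bodies whose parameter is between `c`
and `κ` -/
def SelK (c κ : ℝ) : Prop := ∃ D : Finset (ℂ × ℂ), D.card ≤ 12 ∧
  ∀ x1 x2 : ℂ, Dom 1 c x1 x2 → ∃ u ∈ D, ∃ l w p s a : ℝ, ∃ z : ℂ, 0 ≤ p ∧ 0 ≤ s ∧ 0 ≤ a ∧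
    ‖z‖ ≤ 1 ∧ ‖(⟨l + p, w⟩ : ℂ) * x1 - a * z - u.1‖ + ‖(⟨l + s, w⟩ : ℂ) * x2 - a * z - u.2‖ +
      κ * a < l

/-- the weight one, from the selection statements -/
def W8k : Prop := ∀ c : ℝ, SelK 1 c → SelK c 2 → W8

/-- the selection statement for the weight `1/2`, for the bodies whose parameter is between `c`
and `κ` -/
def SelS (W c κ : ℝ) : Prop := ∃ D : Finset (ℂ × ℂ), D.card ≤ 12 ∧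
  ∀ x1 x2 : ℂ, Dom W c x1 x2 → ∃ u ∈ D, ∃ l w b1 b2 a : ℝ, ∃ e1 e2 z : ℂ,
    0 ≤ b1 ∧ 0 ≤ b2 ∧ 0 ≤ a ∧ ‖e1‖ = 1 ∧ ‖e2‖ = 1 ∧ ‖z‖ ≤ 1 ∧
    W * ‖((⟨l, w / 2⟩ : ℂ) + b1 * (1 - e1) + b2 * (1 - e2)) * x1 - a * z - u.1‖ +
      ‖((⟨l, w⟩ : ℂ) + b1 * (1 - e1 ^ 2) + b2 * (1 - e2 ^ 2)) * x2 - a * z ^ 2 - u.2‖ +
      κ * a < l

/-- the selection statement for the weight `1/2`, when `(1, r)` is in the body -/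
def SelC2 (r0 : ℝ) : Prop := ∀ r : ℝ, r0 ≤ r → r ≤ 1 → ∃ D : Finset (ℂ × ℂ), D.card ≤ 12 ∧
  ∀ x1 x2 : ℂ, ‖x1‖ ≤ 1 → ‖x2‖ ≤ 1 → ∃ u ∈ D, ∃ l w b1 b2 a : ℝ, ∃ e1 e2 z : ℂ,
    0 ≤ b1 ∧ 0 ≤ b2 ∧ 0 ≤ a ∧ ‖e1‖ = 1 ∧ ‖e2‖ = 1 ∧ ‖z‖ ≤ 1 ∧
    min (√2) (1 + r) *
        ‖((⟨l, w / 2⟩ : ℂ) + b1 * (1 - e1) + b2 * (1 - e2)) * x1 - a * z - u.1‖ +
      ‖((⟨l, w⟩ : ℂ) + b1 * (1 - e1 ^ 2) + b2 * (1 - e2 ^ 2)) * x2 - r * a * z ^ 2 - u.2‖ +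
      a < l

/-- the weight `1/2`: the parameter is in one of the intervals of the list `1 = c 0 ≤ c 1 ≤ ...` -/
def W7k : Prop := W2 → W4 → ∀ r0 : ℝ, 0 ≤ r0 → r0 ≤ 2 / 5 → SelC2 r0 →
  (∀ c : ℝ, 1 ≤ c → c ≤ 2 → ∃ c0 κ : ℝ, c0 ≤ c ∧ c ≤ κ ∧ SelS (1 + r0) c0 κ) →
  ∀ K, Body (1 / 2) K → Cov 12 K

end Pool.Agent.Zk84.M4
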