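import Pool.Agent.Zk84.M4.Check2
import Pool.Agent.Zk84.M4.Stm4

/-!
Cells with one more parameter, for the weight `1/2`.
-/

set_option autoImplicit false

namespace Pool.Agent.Zk84.M4

open Complex
open Pool.Agent.Zk84.HC (rot vec vec_rot norm_le_of_sq norm_lt_of_sq)
open Pool.Agent.Zk84.M3

/-- the radius of the omitted disc, with the factor `1024` -/
def ex0 (C j : ℕ) : ℕ := fldN C (1764 + j)

theorem ex0_out {C j : ℕ} {x : ℂ} (h : ((ex0 C j : ℝ) / 1024) ^ 2 ≤ x.re ^ 2 + x.im ^ 2) :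
    (ex0 C j : ℝ) / 1024 ≤ ‖x‖ := by
  refine le_of_sq_le_sq ?_ (norm_nonneg _)
  rw [Complex.sq_norm, Complex.normSq_apply]
  nlinarith

/-- the parameters of a cell -/
structure PS where
  P : PA
  cn : ℤ
  cd : ℤ
  kn : ℤ
  kd : ℤ

/-- the numerator of the factor, the first face -/
def be1 (Q : PS) (C j : ℕ) : ℤ :=
  bif Nat.beq (ex0 C j) 0 then 1024 * Q.cd else (Q.cn - Q.cd) * 1024 + Q.cd * ex0 C j

/-- the numerator of the factor, the second face -/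
def be2 (Q : PS) (C j : ℕ) : ℤ :=
  bif Nat.beq (ex0 C j) 0 then 1024 * Q.cd * Q.P.wd else
    1024 * Q.cn * Q.P.wd - 1024 * Q.P.wn * Q.cd + Q.cd * Q.P.wn * ex0 C j

/-- the inequality of the first face -/
def inq1 (Q : PS) (C j : ℕ) : Bool :=
  and (decide (0 < be1 Q C j))
    (decide (1024 * Q.cd * (Q.kd * (Q.P.wn * fld C (14 * j + 12) +
      Q.P.wd * fld C (14 * j + 13)) + Q.P.wd * (Q.kn * fld C (14 * j + 9))) ≤
      be1 Q C j * (Q.kd * Q.P.wd * fld C (14 * j + 1))))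

/-- the inequality of the second face -/
def inq2 (Q : PS) (C j : ℕ) : Bool :=
  and (decide (0 < be2 Q C j))
    (decide (1024 * Q.cd * Q.P.wd * (Q.kd * (Q.P.wd * fld C (14 * j + 12) +
      Q.P.wn * fld C (14 * j + 13)) + Q.P.wd * (Q.kn * fld C (14 * j + 9))) ≤
      be2 Q C j * (Q.kd * Q.P.wd * fld C (14 * j + 1))))

/-- the factor -/
def Fac (W c β t : ℝ) : Prop := 0 < β ∧ (β = 1 ∨ ∃ τ : ℝ, τ ≤ t ∧ β = c - W + W * τ)

theorem inq1_real {Q : PS} {C j : ℕ} (hcd : 0 < Q.cd) (hkd : 0 < Q.kd) (hwd : 0 < Q.P.wd)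
    (h : inq1 Q C j = true) {x2 : ℂ}
    (hx : ((ex0 C j : ℝ) / 1024) ^ 2 ≤ x2.re ^ 2 + x2.im ^ 2) :
    ∃ β : ℝ, Fac 1 (Q.cn / Q.cd) β ‖x2‖ ∧
      (Q.P.wn / Q.P.wd : ℝ) * fld C (14 * j + 12) + fld C (14 * j + 13) +
        (Q.kn / Q.kd : ℝ) * fld C (14 * j + 9) ≤ fld C (14 * j + 1) * β := by
  simp only [inq1, Bool.and_eq_true, decide_eq_true_eq] at h
  obtain ⟨hb, hi⟩ := h
  have hcd' : (0 : ℝ) < Q.cd := by exact_mod_cast hcd
  have hkd' : (0 : ℝ) < Q.kd := by exact_mod_cast hkd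
  have hwd' : (0 : ℝ) < Q.P.wd := by exact_mod_cast hwd
  have hb' : (0 : ℝ) < (be1 Q C j : ℝ) := by exact_mod_cast hb
  have hi' : 1024 * (Q.cd : ℝ) * (Q.kd * (Q.P.wn * fld C (14 * j + 12) +
      Q.P.wd * fld C (14 * j + 13)) + Q.P.wd * (Q.kn * fld C (14 * j + 9))) ≤
      be1 Q C j * (Q.kd * Q.P.wd * fld C (14 * j + 1)) := by exact_mod_cast hi
  refine ⟨be1 Q C j / (1024 * Q.cd), ⟨by positivity, ?_⟩, ?_⟩
  · cases h0 : Nat.beq (ex0 C j) 0 with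
    | true =>
      left
      simp only [be1, h0, cond_true]
      push_cast
      field_simp
    | false =>
      right
      refine ⟨(ex0 C j : ℝ) / 1024, ex0_out hx, ?_⟩
      simp only [be1, h0, cond_false]
      push_cast
      field_simp
  · have e : (Q.P.wn / Q.P.wd : ℝ) * fld C (14 * j + 12) + fld C (14 * j + 13) +
        (Q.kn / Q.kd : ℝ) * fld C (14 * j + 9) =
        (Q.kd * (Q.P.wn * fld C (14 * j + 12) + Q.P.wd * fld C (14 * j + 13)) +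
          Q.P.wd * (Q.kn * fld C (14 * j + 9))) / (Q.kd * Q.P.wd) := by
      field_simp
    rw [e, ← mul_div_assoc, div_le_div_iff₀ (by positivity) (by positivity)]
    nlinarith

theorem inq2_real {Q : PS} {C j : ℕ} (hcd : 0 < Q.cd) (hkd : 0 < Q.kd) (hwd : 0 < Q.P.wd)
    (h : inq2 Q C j = true) {x1 : ℂ}
    (hx : ((ex0 C j : ℝ) / 1024) ^ 2 ≤ x1.re ^ 2 + x1.im ^ 2) :
    ∃ β : ℝ, Fac (Q.P.wn / Q.P.wd) (Q.cn / Q.cd) β ‖x1‖ ∧
      (Q.P.wn / Q.P.wd : ℝ) * fld C (14 * j + 13) + fld C (14 * j + 12) +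
        (Q.kn / Q.kd : ℝ) * fld C (14 * j + 9) ≤ fld C (14 * j + 1) * β := by
  simp only [inq2, Bool.and_eq_true, decide_eq_true_eq] at h
  obtain ⟨hb, hi⟩ := h
  have hcd' : (0 : ℝ) < Q.cd := by exact_mod_cast hcd
  have hkd' : (0 : ℝ) < Q.kd := by exact_mod_cast hkd
  have hwd' : (0 : ℝ) < Q.P.wd := by exact_mod_cast hwd
  have hb' : (0 : ℝ) < (be2 Q C j : ℝ) := by exact_mod_cast hb
  have hi' : 1024 * (Q.cd : ℝ) * Q.P.wd * (Q.kd * (Q.P.wd * fld C (14 * j + 12) +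
      Q.P.wn * fld C (14 * j + 13)) + Q.P.wd * (Q.kn * fld C (14 * j + 9))) ≤
      be2 Q C j * (Q.kd * Q.P.wd * fld C (14 * j + 1)) := by exact_mod_cast hi
  refine ⟨be2 Q C j / (1024 * Q.cd * Q.P.wd), ⟨by positivity, ?_⟩, ?_⟩
  · cases h0 : Nat.beq (ex0 C j) 0 with
    | true =>
      left
      simp only [be2, h0, cond_true]
      push_cast
      field_simp
    | false =>
      right
      refine ⟨(ex0 C j : ℝ) / 1024, ex0_out hx, ?_⟩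
      simp only [be2, h0, cond_false]
      push_cast
      field_simp
  · have e : (Q.P.wn / Q.P.wd : ℝ) * fld C (14 * j + 13) + fld C (14 * j + 12) +
        (Q.kn / Q.kd : ℝ) * fld C (14 * j + 9) =
        (Q.kd * (Q.P.wd * fld C (14 * j + 12) + Q.P.wn * fld C (14 * j + 13)) +
          Q.P.wd * (Q.kn * fld C (14 * j + 9))) / (Q.kd * Q.P.wd) := by
      field_simp
      ring
    rw [e, ← mul_div_assoc, div_le_div_iff₀ (by positivity) (by positivity)]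
    nlinarith

/-! ### the weight `1/2` -/

/-- a point is illuminated by one of the directions, with the factor `β` -/
def GoodS (dirs : List (ℤ × ℤ × ℤ × ℤ)) (W κ β : ℝ) (x1 x2 : ℂ) : Prop :=
  ∃ d ∈ dirs, ∃ l w b1 b2 a : ℝ, ∃ e1 e2 z : ℂ,
    0 ≤ b1 ∧ 0 ≤ b2 ∧ 0 ≤ a ∧ ‖e1‖ = 1 ∧ ‖e2‖ = 1 ∧ ‖z‖ ≤ 1 ∧
    W * ‖((⟨l, w / 2⟩ : ℂ) + b1 * (1 - e1) + b2 * (1 - e2)) * x1 - a * z - (vec d).1‖ +
      ‖((⟨l, w⟩ : ℂ) + b1 * (1 - e1 ^ 2) + b2 * (1 - e2 ^ 2)) * x2 - a * z ^ 2 -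
        (vec d).2‖ + κ * a < l * β

/-- the pieces on the disc, the first face -/
def hd1 (Q : PS) (C j : ℕ) : List Pc := [pcy Q.P 1 13 C j]

/-- the pieces on the arc, the second face -/
def ha2 (Q : PS) (C j : ℕ) : List Pc := [pcy Q.P 1 12 C j]

/-- the pieces on the disc, the second face -/
def hd2 (Q : PS) (C j : ℕ) : List Pc := [pcx Q.P 13 C j]

/-- the side conditions, the first face -/
def sids1 (Q : PS) (C j : ℕ) : Bool := and (sidc0 Q.P C j) (inq1 Q C j)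

/-- the side conditions, the second face -/
def sids2 (Q : PS) (C j : ℕ) : Bool := and (sidc0 Q.P C j) (inq2 Q C j)

theorem goodS_of {P : PA} {x1 x2 : ℂ} {C j : ℕ} (h0 : sidc0 P C j = true) {W κ β : ℝ}
    (hlt : W * ‖vx P C j x1‖ + ‖vy P 1 C j x2‖ + κ * fld C (14 * j + 9) <
      fld C (14 * j + 1) * β) : GoodS P.dirs W κ β x1 x2 := by
  simp only [sidc0, Bool.and_eq_true, decide_eq_true_eq] at h0
  obtain ⟨hg, hb1, hb2, ha, he1, he2, hz⟩ := h0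
  have hg' : fldN C (14 * j) < P.dirs.length := Nat.le_of_ble_eq_true hg
  refine ⟨nth P.dirs (fldN C (14 * j)), nth_mem _ _ hg', fld C (14 * j + 1), fld C (14 * j + 2),
    fld C (14 * j + 3), fld C (14 * j + 6), fld C (14 * j + 9),
    pe (fld C (14 * j + 4)) (fld C (14 * j + 5)), pe (fld C (14 * j + 7)) (fld C (14 * j + 8)),
    pz (fld C (14 * j + 10)) (fld C (14 * j + 11)), by exact_mod_cast hb1, by exact_mod_cast hb2,
    by exact_mod_cast ha, pe_norm he1, pe_norm he2, pz_norm hz, ?_⟩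
  simp only [vx, vy, Complex.ofReal_one, one_mul] at hlt
  exact hlt

theorem goodS1 {Q : PS} (hD : Q.P.D = 1) (hcd : 0 < Q.cd) (hkd : 0 < Q.kd) (hwd : 0 < Q.P.wd)
    (hwn : 0 < Q.P.wn) {x1 x2 : ℂ}
    (h : Hit2 (ga1 Q.P) (hd1 Q) ex0 (sids1 Q) x1.re x1.im x2.re x2.im) :
    ∃ β : ℝ, Fac 1 (Q.cn / Q.cd) β ‖x2‖ ∧
      GoodS Q.P.dirs (Q.P.wn / Q.P.wd) (Q.kn / Q.kd) β x1 x2 := by
  obtain ⟨C, j, hs, hrd, ha, hd⟩ := h
  simp only [sids1, Bool.and_eq_true] at hs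
  obtain ⟨hs0, hw⟩ := hs
  have hs0' := hs0
  simp only [sidc0, Bool.and_eq_true, decide_eq_true_eq] at hs0'
  obtain ⟨-, -, -, -, he1, he2, -⟩ := hs0'
  have hwd' : (0 : ℝ) < Q.P.wd := by exact_mod_cast hwd
  have hwn' : (0 : ℝ) < Q.P.wn := by exact_mod_cast hwn
  have a0 := ha (pcx Q.P 12 C j) (by simp [ga1])
  have d0 := hd (pcy Q.P 1 13 C j) (by simp [hd1, hd2])
  have hr : (1 : ℝ) * (Q.P.D : ℝ) = ((1 : ℤ) : ℝ) := by rw [hD]; push_cast; ring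
  have b0 := cz_le a0.1 a0.2
  have b1 := cz_lt d0.1 d0.2
  rw [cz_pcx] at b0
  rw [cz_pcy Q.P 1 13 C j x2 hr, vyD_eq Q.P 1 C j x2 he1 he2] at b1
  have eR : (((pcx Q.P 12 C j).r : ℤ) : ℝ) = 2560 * fld C (14 * j + 12) := by
    simp only [pcx]; push_cast; rfl
  have eR0 : (((pcy Q.P 1 13 C j).r : ℤ) : ℝ) =
      6553600 * (Q.P.D : ℝ) * fld C (14 * j + 13) := by
    simp only [pcy]; push_cast; rfl
  rw [eR] at b0
  rw [eR0] at b1
  have hD' : (0 : ℝ) < Q.P.D := by rw [hD]; norm_num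
  have hB := lt_of_mul_norm (D := 6553600 * (Q.P.D : ℝ)) (by positivity)
    (by rw [mem_ball_zero_iff]; exact b1)
  have hA := le_of_mul_norm (D := 2560) (by norm_num)
    (by rw [mem_closedBall_zero_iff]; exact b0)
  obtain ⟨β, hβ, hle⟩ := inq1_real hcd hkd hwd hw hrd
  refine ⟨β, hβ, goodS_of hs0 ?_⟩
  have hWA := mul_le_mul_of_nonneg_left hA (div_nonneg hwn'.le hwd'.le)
  linarith

theorem goodS2 {Q : PS} (hD : Q.P.D = 1) (hcd : 0 < Q.cd) (hkd : 0 < Q.kd) (hwd : 0 < Q.P.wd)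
    (hwn : 0 < Q.P.wn) {x1 x2 : ℂ}
    (h : Hit2 (ha2 Q) (hd2 Q) ex0 (sids2 Q) x2.re x2.im x1.re x1.im) :
    ∃ β : ℝ, Fac (Q.P.wn / Q.P.wd) (Q.cn / Q.cd) β ‖x1‖ ∧
      GoodS Q.P.dirs (Q.P.wn / Q.P.wd) (Q.kn / Q.kd) β x1 x2 := by
  obtain ⟨C, j, hs, hrd, ha, hd⟩ := h
  simp only [sids2, Bool.and_eq_true] at hs
  obtain ⟨hs0, hw⟩ := hs
  have hs0' := hs0
  simp only [sidc0, Bool.and_eq_true, decide_eq_true_eq] at hs0'
  obtain ⟨-, -, -, -, he1, he2, -⟩ := hs0'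
  have hwd' : (0 : ℝ) < Q.P.wd := by exact_mod_cast hwd
  have hwn' : (0 : ℝ) < Q.P.wn := by exact_mod_cast hwn
  have a0 := hd (pcx Q.P 13 C j) (by simp [hd1, hd2])
  have d0 := ha (pcy Q.P 1 12 C j) (by simp [ha2])
  have hr : (1 : ℝ) * (Q.P.D : ℝ) = ((1 : ℤ) : ℝ) := by rw [hD]; push_cast; ring
  have b0 := cz_lt a0.1 a0.2
  have b1 := cz_le d0.1 d0.2
  rw [cz_pcx] at b0
  rw [cz_pcy Q.P 1 12 C j x2 hr, vyD_eq Q.P 1 C j x2 he1 he2] at b1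
  have eR : (((pcx Q.P 13 C j).r : ℤ) : ℝ) = 2560 * fld C (14 * j + 13) := by
    simp only [pcx]; push_cast; rfl
  have eR0 : (((pcy Q.P 1 12 C j).r : ℤ) : ℝ) =
      6553600 * (Q.P.D : ℝ) * fld C (14 * j + 12) := by
    simp only [pcy]; push_cast; rfl
  rw [eR] at b0
  rw [eR0] at b1
  have hD' : (0 : ℝ) < Q.P.D := by rw [hD]; norm_num
  have hB := le_of_mul_norm (D := 6553600 * (Q.P.D : ℝ)) (by positivity)
    (by rw [mem_closedBall_zero_iff]; exact b1)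
  have hA := lt_of_mul_norm (D := 2560) (by norm_num)
    (by rw [mem_ball_zero_iff]; exact b0)
  obtain ⟨β, hβ, hle⟩ := inq2_real hcd hkd hwd hw hrd
  refine ⟨β, hβ, goodS_of hs0 ?_⟩
  have hWA := mul_lt_mul_of_pos_left hA (div_pos hwn' hwd')
  linarith

/-- the statement is invariant under the multiplication by `(i, -1)` -/
theorem turnS {dirs dirs2 : List (ℤ × ℤ × ℤ × ℤ)} (hD : ∀ d ∈ dirs, rotC d ∈ dirs2)
    {W κ β : ℝ} {x1 x2 : ℂ} (h : GoodS dirs W κ β (-I * x1) (-x2)) :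
    GoodS dirs2 W κ β x1 x2 := by
  obtain ⟨d, hd, l, w, b1, b2, a, e1, e2, z, hb1, hb2, ha, he1, he2, hz, h⟩ := h
  refine ⟨rotC d, hD d hd, l, w, b1, b2, a, e1, e2, I * z, hb1, hb2, ha, he1, he2, ?_, ?_⟩
  · rw [norm_mul, norm_I, one_mul]; exact hz
  · rw [vec_rotC]
    have k1 : ((⟨l, w / 2⟩ : ℂ) + b1 * (1 - e1) + b2 * (1 - e2)) * x1 - a * (I * z) -
        I * (vec d).1 = I * (((⟨l, w / 2⟩ : ℂ) + b1 * (1 - e1) + b2 * (1 - e2)) * (-I * x1) -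
          a * z - (vec d).1) := by
      linear_combination (((⟨l, w / 2⟩ : ℂ) + b1 * (1 - e1) + b2 * (1 - e2)) * x1) * I_mul_I
    have k2 : ((⟨l, w⟩ : ℂ) + b1 * (1 - e1 ^ 2) + b2 * (1 - e2 ^ 2)) * x2 -
        a * (I * z) ^ 2 - (-(vec d).2) =
        -(((⟨l, w⟩ : ℂ) + b1 * (1 - e1 ^ 2) + b2 * (1 - e2 ^ 2)) * (-x2) - a * z ^ 2 -
          (vec d).2) := by
      linear_combination (-(a * z ^ 2) : ℂ) * I_mul_I
    show W * ‖((⟨l, w / 2⟩ : ℂ) + b1 * (1 - e1) + b2 * (1 - e2)) * x1 - a * (I * z) -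
        I * (vec d).1‖ + ‖((⟨l, w⟩ : ℂ) + b1 * (1 - e1 ^ 2) + b2 * (1 - e2 ^ 2)) * x2 -
        a * (I * z) ^ 2 - (-(vec d).2)‖ + κ * a < l * β
    rw [k1, k2, norm_mul, norm_I, one_mul, norm_neg]
    exact h

/-- the change of sign of the first coordinate -/
theorem signS {dirs : List (ℤ × ℤ × ℤ × ℤ)} (hd : ∀ d ∈ dirs, rotC (rotC d) ∈ dirs)
    {W κ β : ℝ} {x1 x2 : ℂ} (h : GoodS dirs W κ β (-x1) x2) : GoodS dirs W κ β x1 x2 := by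
  have hmap : ∀ d ∈ dirs.map rotC, rotC d ∈ dirs := by
    intro d hd'
    obtain ⟨e, he, rfl⟩ := List.mem_map.1 hd'
    exact hd e he
  refine turnS hmap (turnS (dirs := dirs) (fun d hd => List.mem_map_of_mem hd) ?_)
  have e1 : -I * (-I * x1) = -x1 := by linear_combination x1 * I_mul_I
  rw [e1, neg_neg]
  exact h

theorem scaleS {dirs : List (ℤ × ℤ × ℤ × ℤ)} {W κ β : ℝ} (hW : 0 ≤ W) (hκ : 0 ≤ κ)
    {x1 x2 : ℂ} {t : ℝ} (ht : 0 < t) (hβ : 0 < β) (ht1 : t * β ≤ 1)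
    (h : GoodS dirs W κ β (x1 / t) (x2 / t)) : GoodS dirs W κ 1 x1 x2 := by
  obtain ⟨d, hd, l, w, b1, b2, a, e1, e2, z, hb1, hb2, ha, he1, he2, hz, h⟩ := h
  have ht' : (t : ℂ) ≠ 0 := by exact_mod_cast ht.ne'
  refine ⟨d, hd, l / t, w / t, b1 / t, b2 / t, a, e1, e2, z, div_nonneg hb1 ht.le,
    div_nonneg hb2 ht.le, ha, he1, he2, hz, ?_⟩
  have e1' : (⟨l / t, w / t / 2⟩ : ℂ) = (⟨l, w / 2⟩ : ℂ) / t := by
    apply Complex.ext
    · rw [Complex.div_ofReal_re]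
    · rw [Complex.div_ofReal_im]; ring
  have e2' : (⟨l / t, w / t⟩ : ℂ) = (⟨l, w⟩ : ℂ) / t := by
    apply Complex.ext
    · rw [Complex.div_ofReal_re]
    · rw [Complex.div_ofReal_im]
  have k1 : ((⟨l / t, w / t / 2⟩ : ℂ) + ((b1 / t : ℝ) : ℂ) * (1 - e1) +
      ((b2 / t : ℝ) : ℂ) * (1 - e2)) * x1 =
      ((⟨l, w / 2⟩ : ℂ) + b1 * (1 - e1) + b2 * (1 - e2)) * (x1 / t) := by
    rw [e1']; push_cast; ring
  have k2 : ((⟨l / t, w / t⟩ : ℂ) + ((b1 / t : ℝ) : ℂ) * (1 - e1 ^ 2) +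
      ((b2 / t : ℝ) : ℂ) * (1 - e2 ^ 2)) * x2 =
      ((⟨l, w⟩ : ℂ) + b1 * (1 - e1 ^ 2) + b2 * (1 - e2 ^ 2)) * (x2 / t) := by
    rw [e2']; push_cast; ring
  rw [k1, k2]
  have hlβ : 0 ≤ l * β := le_trans (by positivity) h.le
  have hl : 0 ≤ l := by
    by_contra hneg
    push Not at hneg
    nlinarith [mul_pos hβ (neg_pos.2 hneg)]
  refine lt_of_lt_of_le h ?_
  rw [mul_one, le_div_iff₀ ht]
  nlinarith

theorem zeroS {dirs : List (ℤ × ℤ × ℤ × ℤ)} (hne : dirs ≠ []) {W κ : ℝ} :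
    GoodS dirs W κ 1 0 0 := by
  obtain ⟨d, hd⟩ := List.exists_mem_of_ne_nil dirs hne
  refine ⟨d, hd, W * ‖(vec d).1‖ + ‖(vec d).2‖ + 1, 0, 0, 0, 0, 1, 1, 0, le_rfl, le_rfl, le_rfl,
    by simp, by simp, by simp, ?_⟩
  simp

/-- scaling to the faces of the bidisc, with a factor -/
theorem to_facesF {G : ℝ → ℂ → ℂ → Prop} {W c : ℝ} (h0 : G 1 0 0)
    (hsc : ∀ (β : ℝ) (x1 x2 : ℂ) (t : ℝ), 0 < t → 0 < β → t * β ≤ 1 → G β (x1 / t) (x2 / t) →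
      G 1 x1 x2)
    (hf1 : ∀ x1 x2 : ℂ, ‖x1‖ = 1 → ‖x2‖ ≤ 1 → ∃ β, Fac 1 c β ‖x2‖ ∧ G β x1 x2)
    (hf2 : ∀ x1 x2 : ℂ, ‖x1‖ ≤ 1 → ‖x2‖ = 1 → ∃ β, Fac W c β ‖x1‖ ∧ G β x1 x2) (hW : 0 ≤ W)
    (x1 x2 : ℂ) (h : Dom W c x1 x2) : G 1 x1 x2 := by
  obtain ⟨h1, h2, hd1, hd2⟩ := h
  rcases le_total ‖x2‖ ‖x1‖ with h12 | h12
  · rcases (norm_nonneg x1).eq_or_lt with hz | hz
    · have z1 : x1 = 0 := norm_eq_zero.1 hz.symm
      have z2 : x2 = 0 := norm_eq_zero.1 (le_antisymm (by rw [hz]; exact h12) (norm_nonneg _))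
      subst z1 z2
      exact h0
    · have n2 : ‖x2 / (‖x1‖ : ℂ)‖ = ‖x2‖ / ‖x1‖ := by
        rw [norm_div, Complex.norm_real, norm_norm]
      obtain ⟨β, ⟨hβ, hfac⟩, hG⟩ := hf1 (x1 / ‖x1‖) (x2 / ‖x1‖)
        (by rw [norm_div, Complex.norm_real, norm_norm, div_self hz.ne'])
        (by rw [n2]; exact (div_le_one hz).2 h12)
      refine hsc β x1 x2 ‖x1‖ hz hβ ?_ hG
      rcases hfac with hf | ⟨τ, hτ, hf⟩
      · rw [hf, mul_one]; exact h1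
      · rw [n2, le_div_iff₀ hz] at hτ
        rw [hf]
        have := hd1 h12
        nlinarith
  · rcases (norm_nonneg x2).eq_or_lt with hz | hz
    · have z2 : x2 = 0 := norm_eq_zero.1 hz.symm
      have z1 : x1 = 0 := norm_eq_zero.1 (le_antisymm (by rw [hz]; exact h12) (norm_nonneg _))
      subst z1 z2
      exact h0
    · have n1 : ‖x1 / (‖x2‖ : ℂ)‖ = ‖x1‖ / ‖x2‖ := by
        rw [norm_div, Complex.norm_real, norm_norm]
      obtain ⟨β, ⟨hβ, hfac⟩, hG⟩ := hf2 (x1 / ‖x2‖) (x2 / ‖x2‖)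
        (by rw [n1]; exact (div_le_one hz).2 h12)
        (by rw [norm_div, Complex.norm_real, norm_norm, div_self hz.ne'])
      refine hsc β x1 x2 ‖x2‖ hz hβ ?_ hG
      rcases hfac with hf | ⟨τ, hτ, hf⟩
      · rw [hf, mul_one]; exact h2
      · rw [n1, le_div_iff₀ hz] at hτ
        rw [hf]
        have := hd2 h12
        have hWτ := mul_le_mul_of_nonneg_left hτ hW
        nlinarith

/-- the cheap part of the check of a cell; `R` are the turned directions -/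
def cellSK (Q : PS) (R : PA) (l1 l2 l3 : List ArcD) : Bool :=
  and (decide (Q.P.D = 1)) (and (and (decide (0 < Q.cd)) (and (decide (0 < Q.kd))
      (decide (0 ≤ Q.kn))))
    (and (decide (0 < Q.P.wd)) (and (decide (0 < Q.P.wn))
    (and (decide (Q.P.dirs ≠ [])) (and (decide (∀ d ∈ Q.P.dirs, rotC (rotC d) ∈ Q.P.dirs))
      (and (and (decide (∀ d ∈ R.dirs, rotC d ∈ Q.P.dirs))
        (decide (∀ d ∈ R.dirs, rotC (rotC d) ∈ R.dirs)))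
        (and (and (decide (R.D = 1))
          (and (decide (R.wn = Q.P.wn)) (decide (R.wd = Q.P.wd))))
      (and (and (!l1.isEmpty) (and (!l2.isEmpty) (!l3.isEmpty)))
        (and (chainOK 128 0 l1) (and (chainOK 128 0 l2) (chainOK 128 0 l3)))))))))))

/-- **the covering of a cell** -/
theorem cellS {Q : PS} {R : PA} {l1 l2 l3 : List ArcD} (hc : cellSK Q R l1 l2 l3 = true)
    (h1 : allArc l1 (arcOK2 (ga1 Q.P) (hd1 Q) ex0 (sids1 Q) 0) = true)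
    (h2 : allArc l2 (arcOK2 (ha2 Q) (hd2 Q) ex0 (sids2 Q) 1) = true)
    (h3 : allArc l3 (arcOK2 (ha2 ⟨R, Q.cn, Q.cd, Q.kn, Q.kd⟩)
      (hd2 ⟨R, Q.cn, Q.cd, Q.kn, Q.kd⟩) ex0 (sids2 ⟨R, Q.cn, Q.cd, Q.kn, Q.kd⟩) 1) = true) (x1 x2 : ℂ)
    (hx : Dom (Q.P.wn / Q.P.wd) (Q.cn / Q.cd) x1 x2) :
    GoodS Q.P.dirs (Q.P.wn / Q.P.wd) (Q.kn / Q.kd) 1 x1 x2 := by
  simp only [cellSK, Bool.and_eq_true, decide_eq_true_eq, Bool.not_eq_true',
    List.isEmpty_eq_false_iff] at hc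
  obtain ⟨hD, ⟨hcd, hkd, hkn⟩, hwd, hwn, hne, hrot, ⟨hR, hR2⟩, ⟨eD, ewn, ewd⟩,
    ⟨hn1, hn2, hn3⟩, hc1, hc2, hc3⟩ := hc
  have hW : (0 : ℝ) ≤ (Q.P.wn / Q.P.wd : ℝ) := by
    have h3 : (0 : ℝ) ≤ Q.P.wn := by exact_mod_cast hwn.le
    have h4 : (0 : ℝ) ≤ Q.P.wd := by exact_mod_cast hwd.le
    exact div_nonneg h3 h4
  have hκ : (0 : ℝ) ≤ (Q.kn / Q.kd : ℝ) := by
    have h3 : (0 : ℝ) ≤ Q.kn := by exact_mod_cast hkn
    have h4 : (0 : ℝ) ≤ Q.kd := by exact_mod_cast hkd.le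
    exact div_nonneg h3 h4
  have n1 : ∀ z : ℂ, ‖-I * z‖ = ‖z‖ := by intro z; rw [norm_mul, norm_neg, norm_I, one_mul]
  refine to_facesF (G := fun β x1 x2 => GoodS Q.P.dirs (Q.P.wn / Q.P.wd) (Q.kn / Q.kd) β x1 x2)
    (zeroS hne) (fun β x1 x2 t ht hβ ht1 h => scaleS hW hκ ht hβ ht1 h) ?_ ?_ hW x1 x2 hx
  · intro x1 x2 hx1 hx2
    rcases le_total 0 x1.im with hi | hi
    · exact goodS1 hD hcd hkd hwd hwn (halfdisc2 hn1 h1 hc1 hx1 hi hx2)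
    · obtain ⟨β, hβ, hg⟩ := goodS1 (x1 := -x1) (x2 := x2) hD hcd hkd hwd hwn
        (halfdisc2 hn1 h1 hc1 (by rw [norm_neg]; exact hx1) (by rw [Complex.neg_im]; linarith) hx2)
      exact ⟨β, hβ, signS hrot hg⟩
  · intro x1 x2 hx1 hx2
    have base : ∀ x1 x2 : ℂ, ‖x1‖ ≤ 1 → ‖x2‖ = 1 → 0 ≤ x2.im →
        ∃ β, Fac (Q.P.wn / Q.P.wd) (Q.cn / Q.cd) β ‖x1‖ ∧
          GoodS Q.P.dirs (Q.P.wn / Q.P.wd) (Q.kn / Q.kd) β x1 x2 := by
      intro x1 x2 hx1 hx2 h2im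
      rcases le_total 0 x1.im with hi | hi
      · exact goodS2 hD hcd hkd hwd hwn (halfplane2 hn2 h2 hc2 hx2 h2im hx1 hi)
      · obtain ⟨β, hβ, hg⟩ := goodS2 (x1 := -x1) (x2 := x2) hD hcd hkd hwd hwn
          (halfplane2 hn2 h2 hc2 hx2 h2im (by rw [norm_neg]; exact hx1)
            (by rw [Complex.neg_im]; linarith))
        rw [norm_neg] at hβ
        exact ⟨β, hβ, signS hrot hg⟩
    have base' : ∀ x1 x2 : ℂ, ‖x1‖ ≤ 1 → ‖x2‖ = 1 → 0 ≤ x2.im →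
        ∃ β, Fac (R.wn / R.wd) (Q.cn / Q.cd) β ‖x1‖ ∧
          GoodS R.dirs (R.wn / R.wd) (Q.kn / Q.kd) β x1 x2 := by
      have hwd' : 0 < R.wd := by rw [ewd]; exact hwd
      have hwn' : 0 < R.wn := by rw [ewn]; exact hwn
      intro x1 x2 hx1 hx2 h2im
      rcases le_total 0 x1.im with hi | hi
      · exact goodS2 (Q := ⟨R, Q.cn, Q.cd, Q.kn, Q.kd⟩) eD hcd hkd hwd' hwn'
          (halfplane2 hn3 h3 hc3 hx2 h2im hx1 hi)
      · obtain ⟨β, hβ, hg⟩ := goodS2 (Q := ⟨R, Q.cn, Q.cd, Q.kn, Q.kd⟩) (x1 := -x1) (x2 := x2)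
          eD hcd hkd hwd' hwn' (halfplane2 hn3 h3 hc3 hx2 h2im (by rw [norm_neg]; exact hx1)
            (by rw [Complex.neg_im]; linarith))
        rw [norm_neg] at hβ
        exact ⟨β, hβ, signS hR2 hg⟩
    rcases le_total 0 x2.im with hi | hi
    · exact base x1 x2 hx1 hx2 hi
    · obtain ⟨β, hβ, hg⟩ := base' (-I * x1) (-x2) (by rw [n1]; exact hx1)
        (by rw [norm_neg]; exact hx2) (by rw [Complex.neg_im]; linarith)
      rw [ewn, ewd] at hβ hg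
      rw [n1] at hβ
      exact ⟨β, hβ, turnS hR hg⟩

end Pool.Agent.Zk84.M4
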