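import Pool.Agent.Zk84.M4.W7g
import Pool.Agent.Zk84.M4.NC0
import Pool.Agent.Zk84.M4.NC1
import Pool.Agent.Zk84.M4.NC2
import Pool.Agent.Zk84.M4.NC3
import Pool.Agent.Zk84.M4.NC4
import Pool.Agent.Zk84.M4.NC5
import Pool.Agent.Zk84.M4.NC6
import Pool.Agent.Zk84.M4.NC7
import Pool.Agent.Zk84.M4.NC8

/-!
The selection statement for the weight `1/2`, with fourteen directions.
-/

set_option autoImplicit false

namespace Pool.Agent.Zk84.M4.SelN

open Complex
open Pool.Agent.Zk84.HC (vec)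
open Pool.Agent.Zk84.M3 (PA ArcD allArc arcOK ga1 gd1 ga2 gd2 sidc1 sidc2)
open Pool.Agent.Zk84.M4.W7g (SelCm)

/-- the directions as a finite set -/
noncomputable def dset (dirs : List (ℤ × ℤ × ℤ × ℤ)) : Finset (ℂ × ℂ) := by
  classical
  exact (dirs.map vec).toFinset

theorem dset_card {m : ℕ} {dirs : List (ℤ × ℤ × ℤ × ℤ)} (h : dirs.length = m) :
    (dset dirs).card ≤ m := by
  classical
  unfold dset
  refine (List.toFinset_card_le _).trans ?_
  rw [List.length_map, h]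

theorem mem_dset {dirs : List (ℤ × ℤ × ℤ × ℤ)} {d : ℤ × ℤ × ℤ × ℤ} (h : d ∈ dirs) :
    vec d ∈ dset dirs := by
  classical
  unfold dset
  rw [List.mem_toFinset]
  exact List.mem_map_of_mem h

theorem selC_cell {P Q R : PA} {l1 l4 l2 l3 : List ArcD}
    (hc : cellCN P Q R l1 l4 l2 l3 = true)
    (h1 : allArc l1 (arcOK (ga1 P) (gd1 P) (sidc1 P) 0) = true)
    (h4 : allArc l4 (arcOK (ga1 Q) (gd1 Q) (sidc1 Q) 0) = true)
    (h2 : allArc l2 (arcOK (ga2 P) (gd2 P) (sidc2 P) 0) = true)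
    (h3 : allArc l3 (arcOK (ga2 R) (gd2 R) (sidc2 R) 0) = true)
    (hlen : P.dirs.length = 14)
    {r : ℝ} (hr0 : (P.n0 : ℝ) ≤ r * P.D) (hr1 : r * P.D ≤ P.n1) {W : ℝ}
    (hW : min (√2) (1 + r) ≤ W) (hPW : ((P.wn : ℝ) / P.wd) = W) :
    ∃ D : Finset (ℂ × ℂ), D.card ≤ 14 ∧
      ∀ x1 x2 : ℂ, ‖x1‖ ≤ 1 → ‖x2‖ ≤ 1 → ∃ u ∈ D, ∃ l w b1 b2 a : ℝ, ∃ e1 e2 z : ℂ,
        0 ≤ b1 ∧ 0 ≤ b2 ∧ 0 ≤ a ∧ ‖e1‖ = 1 ∧ ‖e2‖ = 1 ∧ ‖z‖ ≤ 1 ∧
        min (√2) (1 + r) *
            ‖((⟨l, w / 2⟩ : ℂ) + b1 * (1 - e1) + b2 * (1 - e2)) * x1 - a * z - u.1‖ +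
          ‖((⟨l, w⟩ : ℂ) + b1 * (1 - e1 ^ 2) + b2 * (1 - e2 ^ 2)) * x2 - r * a * z ^ 2 - u.2‖ +
          a < l := by
  refine ⟨dset P.dirs, dset_card hlen, fun x1 x2 hx1 hx2 => ?_⟩
  obtain ⟨d, hd, l, w, b1, b2, a, e1, e2, z, hb1, hb2, ha, he1, he2, hz, h⟩ :=
    cellC3 hc h1 h4 h2 h3 hr0 hr1 x1 x2 hx1 hx2
  refine ⟨vec d, mem_dset hd, l, w, b1, b2, a, e1, e2, z, hb1, hb2, ha, he1, he2, hz, ?_⟩
  rw [hPW] at h
  have := mul_le_mul_of_nonneg_right hW
    (norm_nonneg (((⟨l, w / 2⟩ : ℂ) + b1 * (1 - e1) + b2 * (1 - e2)) * x1 - a * z - (vec d).1))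
  linarith

theorem sqrt_two_le : √2 ≤ 142 / 100 := by
  rw [Real.sqrt_le_left (by norm_num)]
  norm_num

theorem selC14 : SelCm 14 := by
  intro r hr0 hr1
  rcases le_total r (3 / 100) with h | h0
  · exact selC_cell NC0.t0 NC0.t1 NC0.t4 NC0.t2 NC0.t3 rfl
      (by simp only [NC0.par]; push_cast; linarith) (by simp only [NC0.par]; push_cast; linarith)
      (W := 103 / 100) ((min_le_right _ _).trans (by linarith))
      (by simp only [NC0.par]; push_cast; rfl)
  rcases le_total r (8 / 100) with h | h1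
  · exact selC_cell NC1.t0 NC1.t1 NC1.t4 NC1.t2 NC1.t3 rfl
      (by simp only [NC1.par]; push_cast; linarith) (by simp only [NC1.par]; push_cast; linarith)
      (W := 108 / 100) ((min_le_right _ _).trans (by linarith))
      (by simp only [NC1.par]; push_cast; rfl)
  rcases le_total r (14 / 100) with h | h2
  · exact selC_cell NC2.t0 NC2.t1 NC2.t4 NC2.t2 NC2.t3 rfl
      (by simp only [NC2.par]; push_cast; linarith) (by simp only [NC2.par]; push_cast; linarith)
      (W := 114 / 100) ((min_le_right _ _).trans (by linarith))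
      (by simp only [NC2.par]; push_cast; rfl)
  rcases le_total r (20 / 100) with h | h3
  · exact selC_cell NC3.t0 NC3.t1 NC3.t4 NC3.t2 NC3.t3 rfl
      (by simp only [NC3.par]; push_cast; linarith) (by simp only [NC3.par]; push_cast; linarith)
      (W := 120 / 100) ((min_le_right _ _).trans (by linarith))
      (by simp only [NC3.par]; push_cast; rfl)
  rcases le_total r (27 / 100) with h | h4
  · exact selC_cell NC4.t0 NC4.t1 NC4.t4 NC4.t2 NC4.t3 rfl
      (by simp only [NC4.par]; push_cast; linarith) (by simp only [NC4.par]; push_cast; linarith)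
      (W := 127 / 100) ((min_le_right _ _).trans (by linarith))
      (by simp only [NC4.par]; push_cast; rfl)
  rcases le_total r (35 / 100) with h | h5
  · exact selC_cell NC5.t0 NC5.t1 NC5.t4 NC5.t2 NC5.t3 rfl
      (by simp only [NC5.par]; push_cast; linarith) (by simp only [NC5.par]; push_cast; linarith)
      (W := 135 / 100) ((min_le_right _ _).trans (by linarith))
      (by simp only [NC5.par]; push_cast; rfl)
  rcases le_total r (45 / 100) with h | h6
  · exact selC_cell NC6.t0 NC6.t1 NC6.t4 NC6.t2 NC6.t3 rfl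
      (by simp only [NC6.par]; push_cast; linarith) (by simp only [NC6.par]; push_cast; linarith)
      (W := 142 / 100) ((min_le_left _ _).trans sqrt_two_le)
      (by simp only [NC6.par]; push_cast; rfl)
  rcases le_total r (60 / 100) with h | h7
  · exact selC_cell NC7.t0 NC7.t1 NC7.t4 NC7.t2 NC7.t3 rfl
      (by simp only [NC7.par]; push_cast; linarith) (by simp only [NC7.par]; push_cast; linarith)
      (W := 142 / 100) ((min_le_left _ _).trans sqrt_two_le)
      (by simp only [NC7.par]; push_cast; rfl)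
  · exact selC_cell NC8.t0 NC8.t1 NC8.t4 NC8.t2 NC8.t3 rfl
      (by simp only [NC8.par]; push_cast; linarith) (by simp only [NC8.par]; push_cast; linarith)
      (W := 142 / 100) ((min_le_left _ _).trans sqrt_two_le)
      (by simp only [NC8.par]; push_cast; rfl)

end Pool.Agent.Zk84.M4.SelN
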