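import Pool.Agent.Zk84.M4.Stm

/-!
The statement `L11` in two parts.
-/

set_option autoImplicit false

namespace Pool.Agent.Zk84.M4

open Complex Set

/-- `g a` is the last direction whose face meets the face of the direction `a` -/
def GoodG (P : Set ℂ) (g : ℝ → ℝ) : Prop :=
  (∀ a, a < g a ∧ g a < a + Real.pi ∧ Lk P a (g a)) ∧
  (∀ a b, g a < b → b ≤ a + Real.pi → ¬ Lk P a b) ∧
  (∀ a, g (a + 2 * Real.pi) = g a + 2 * Real.pi) ∧
  (∀ a, a + Real.pi ≤ g (g a + Real.pi) - Real.pi ∨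
    Lk P (g (g a + Real.pi) - Real.pi) (a + Real.pi))

/-- L12: steps 1 and 2 -/
def L12 : Prop := ∀ P : Set ℂ, Convex ℝ P → IsCompact P → (interior P).Nonempty →
  (∀ a b c : ℝ, a < b → b < c → c < a + Real.pi → Lk P a b ∨ Lk P c (a + Real.pi) ∨
    Lk P (b + Real.pi) (c + Real.pi)) → ∃ g : ℝ → ℝ, GoodG P g

/-- L13: step 3 -/
def L13 : Prop := ∀ P : Set ℂ, Convex ℝ P → IsCompact P → (interior P).Nonempty →
  (∃ g : ℝ → ℝ, GoodG P g) →
  ∃ c a b : ℂ, P = {x | ∃ s t : ℝ, |s| ≤ 1 ∧ |t| ≤ 1 ∧ x = c + s • a + t • b}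

theorem l11_of (h0 : L12) (h1 : L13) : L11 := fun P hP hc hi hA =>
  h1 P hP hc hi (h0 P hP hc hi hA)

end Pool.Agent.Zk84.M4
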