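import Pool.Agent.Zk84.M4.Stm2

/-!
Bodies of `ℝ⁴` invariant under a circle of rotations: the statements.
-/

set_option autoImplicit false

namespace Pool.Agent.Zk84.M4

open Complex Set Pool.Agent.Zk76.Wt

/-- the rotation of `ℝ⁴` by the angles `a t` and `b t` in the two coordinate planes -/
noncomputable def turn (a b t : ℝ) (x : EuclideanSpace ℝ (Fin 4)) : EuclideanSpace ℝ (Fin 4) :=
  !₂[Real.cos (a * t) * x 0 - Real.sin (a * t) * x 1,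
    Real.sin (a * t) * x 0 + Real.cos (a * t) * x 1,
    Real.cos (b * t) * x 2 - Real.sin (b * t) * x 3,
    Real.sin (b * t) * x 2 + Real.cos (b * t) * x 3]

/-- twelve translates for the weights other than `1/2` -/
def CoverNot : Prop :=
  ∀ k : ℝ, 0 ≤ k → k ≤ 1 → k ≠ 1 / 2 → ∀ K : Set (ℂ × ℂ), Convex ℝ K → IsCompact K →
    (interior K).Nonempty → (∀ (t : ℝ) (x : ℂ × ℂ), x ∈ K →
      (Complex.exp ((k : ℂ) * (t : ℂ) * Complex.I) * x.1,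
        Complex.exp ((t : ℂ) * Complex.I) * x.2) ∈ K) → Cov 12 K

/-- T12: the same for bodies of `ℝ⁴` -/
def T12 : Prop := CoverNot → ∀ a b : ℝ, (a ≠ 0 ∨ b ≠ 0) → |a| ≠ 2 * |b| → |b| ≠ 2 * |a| →
  ∀ K : Set (EuclideanSpace ℝ (Fin 4)), Convex ℝ K → IsCompact K → (interior K).Nonempty →
    (∀ (t : ℝ), ∀ x ∈ K, turn a b t x ∈ K) → Cov 12 K

/-- TE: bodies with infinitely many symmetries -/
def TE : Prop := ∀ K : Set (EuclideanSpace ℝ (Fin 4)), Convex ℝ K → IsCompact K →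
  (interior K).Nonempty →
  {g : EuclideanSpace ℝ (Fin 4) ≃ᵃ[ℝ] EuclideanSpace ℝ (Fin 4) | g '' K = K}.Infinite →
  ∃ k : ℝ, 0 ≤ k ∧ k ≤ 1 ∧
    ∃ g : EuclideanSpace ℝ (Fin 4) ≃ᵃ[ℝ] EuclideanSpace ℝ (Fin 4),
      ∀ (t : ℝ), ∀ x ∈ g '' K, turn k 1 t x ∈ g '' K

end Pool.Agent.Zk84.M4
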