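import Pool.Agent.Zk84.M4.SelH
import Pool.Agent.Zk84.M4.Stm5
import Pool.Agent.Zk84.M4.Stm6
import Pool.Agent.Zk84.M3.W3p
import Pool.Agent.Zk90.M3W1
import Pool.Agent.Zk80.M3W2
import Pool.Agent.Zk76.M3W4
import Pool.Agent.Zk76.M4W5
import Pool.Agent.Zk76.M4W6b
import Pool.Agent.Zk76.M4W8k
import Pool.Agent.Zk76.M4HB
import Pool.Agent.Zk76.M4L13
import Pool.Agent.Zk67.M4L12

/-!
Bodies in `ℂ × ℂ` with a circle of symmetries.
-/

set_option autoImplicit false

namespace Pool.Agent.Zk84.M4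

open Pool.Agent.Zk76.Wt
open Pool.Agent.Zk84.M3 (Body)

/-- a planar convex body is illuminated by three directions, or it is a parallelogram -/
theorem l1 : L1 := l1_of Pool.Agent.Zk76.M4L13.l10
  (l11_of Pool.Agent.Zk67.M4.l12 Pool.Agent.Zk76.M4L13.l13)

/-- a convex body in `ℂ × ℂ` with the symmetries `(e^{ikt}, e^{it})`, `k ≠ 1 / 2`, is covered by
twelve translates of its interior -/
theorem coverNot : CoverNot := by
  have w5 : W5 := Pool.Agent.Zk76.M4W5.w5_of l1
  have w8 : W8 := Pool.Agent.Zk76.M4W8k.w8m selK_all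
  intro k hk0 hk1 h2 K hK hc hi hinv
  rcases hk0.eq_or_lt with h0 | h0
  · refine w5 K hK hc hi fun t x hx => ?_
    have := hinv t x hx
    rw [← h0] at this
    simpa using this
  rcases hk1.eq_or_lt with h1 | h1
  · refine w8 K hK hc hi fun z hz x hx => ?_
    have := hinv z.arg x hx
    rw [h1] at this
    have e : Complex.exp ((z.arg : ℂ) * Complex.I) = z := by
      have := Complex.norm_mul_exp_arg_mul_I z
      rw [hz] at this
      simpa using this
    have e2 : (((1 : ℝ) : ℂ)) * (z.arg : ℂ) = (z.arg : ℂ) := by push_cast; ring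
    rw [e2, e] at this
    exact this
  · exact Pool.Agent.Zk90.M3.w1 _ h0 h1 12 (fun K hK => Pool.Agent.Zk76.M4W6b.w6b
      Pool.Agent.Zk80.M3W2.w2 Pool.Agent.Zk84.M3.w3 Pool.Agent.Zk76.M4W6b.w3c
      Pool.Agent.Zk76.M3W4.w4 selA2 selB selD k h0 h1 h2 K hK) K hK hc hi hinv

end Pool.Agent.Zk84.M4
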