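import Pool.Agent.Zk84.M4.Stm4
import Pool.Agent.Zk84.M4.HA0
import Pool.Agent.Zk84.M4.HA1
import Pool.Agent.Zk84.M4.HA2
import Pool.Agent.Zk84.M4.HA3
import Pool.Agent.Zk84.M4.HA4
import Pool.Agent.Zk84.M4.HB1
import Pool.Agent.Zk84.M4.HD0
import Pool.Agent.Zk84.M4.HD1
import Pool.Agent.Zk84.M4.KA1
import Pool.Agent.Zk84.M4.KA2
import Pool.Agent.Zk84.M4.KA3

/-!
The selection statements for the weights other than `1/2`.
-/

set_option autoImplicit false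

namespace Pool.Agent.Zk84.M4

open Complex
open Pool.Agent.Zk84.HC (vec)
open Pool.Agent.Zk84.M3 (PA ArcD allArc arcOK fa1 fd1 fa2 fd2)

/-- the directions as a finite set -/
noncomputable def dset (dirs : List (ℤ × ℤ × ℤ × ℤ)) : Finset (ℂ × ℂ) := by
  classical
  exact (dirs.map vec).toFinset

theorem dset_card {dirs : List (ℤ × ℤ × ℤ × ℤ)} (h : dirs.length = 12) :
    (dset dirs).card ≤ 12 := by
  classical
  unfold dset
  refine (List.toFinset_card_le _).trans ?_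
  rw [List.length_map, h]

theorem mem_dset {dirs : List (ℤ × ℤ × ℤ × ℤ)} {d : ℤ × ℤ × ℤ × ℤ} (h : d ∈ dirs) :
    vec d ∈ dset dirs := by
  classical
  unfold dset
  rw [List.mem_toFinset]
  exact List.mem_map_of_mem h

theorem selA_cell {Q : PB} {l1 l2 : List ArcD} (hc : cellHK Q l1 l2 = true)
    (h1 : allArc l1 (arcOK (fa1 Q.P) (fd1 Q.P) (side1 Q) 0) = true)
    (h2 : allArc l2 (arcOK (fa2 Q.P) (fd2 Q.P) (side2 Q) 0) = true)
    (hlen : Q.P.dirs.length = 12) (hw1 : Q.P.wn = 1) (hw2 : Q.P.wd = 1) {k : ℝ}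
    (hk0 : (Q.P.n0 : ℝ) ≤ k * Q.P.D) (hk1 : k * Q.P.D ≤ Q.P.n1)
    (hcone : ∀ p q : ℝ, (Q.P.c3 : ℝ) * q ^ 2 ≤ Q.c4 * p ^ 2 → Cone k p q) :
    ∃ D : Finset (ℂ × ℂ), D.card ≤ 12 ∧
      ∀ x1 x2 : ℂ, ‖x1‖ ≤ 1 → ‖x2‖ ≤ 1 → ∃ u ∈ D, ∃ l w p q s : ℝ, 0 ≤ p ∧ Cone k p q ∧
        0 ≤ s ∧ ‖(⟨l + p, k * w + q⟩ : ℂ) * x1 - u.1‖ + ‖(⟨l + s, w⟩ : ℂ) * x2 - u.2‖ < l := by
  refine ⟨dset Q.P.dirs, dset_card hlen, fun x1 x2 hx1 hx2 => ?_⟩
  obtain ⟨d, hd, l, w, p, q, s, hp, hq, hs, -, h⟩ := cellH hc h1 h2 hk0 hk1 x1 x2 hx1 hx2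
  refine ⟨vec d, mem_dset hd, l, w, p, q, s, hp, hcone p q hq, hs, ?_⟩
  rw [hw1, hw2] at h
  simpa using h

theorem selA2 : SelA2 := by
  intro k hk0 hk1
  rcases le_total k (1 / 2) with h | h0
  · exact selA_cell HA0.t0 HA0.t1 HA0.t2 rfl rfl rfl
      (by simp only [HA0.par]; push_cast; linarith) (by simp only [HA0.par]; push_cast; linarith)
      (fun p q h => Or.inl (by simp only [HA0.par] at h; push_cast at h; linarith))
  rcases le_total k (2 / 3) with h | h1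
  · exact selA_cell HA1.t0 HA1.t1 HA1.t2 rfl rfl rfl
      (by simp only [HA1.par]; push_cast; linarith) (by simp only [HA1.par]; push_cast; linarith)
      (fun p q h => Or.inl (by simp only [HA1.par] at h; push_cast at h; linarith))
  rcases le_total k (3 / 4) with h | h2
  · exact selA_cell HA2.t0 HA2.t1 HA2.t2 rfl rfl rfl
      (by simp only [HA2.par]; push_cast; linarith) (by simp only [HA2.par]; push_cast; linarith)
      (fun p q h => Or.inl (by simp only [HA2.par] at h; push_cast at h; linarith))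
  rcases le_total k (5 / 6) with h | h3
  · exact selA_cell HA3.t0 HA3.t1 HA3.t2 rfl rfl rfl
      (by simp only [HA3.par]; push_cast; linarith) (by simp only [HA3.par]; push_cast; linarith)
      (fun p q h => Or.inr (Or.inl ⟨h2, by simp only [HA3.par] at h; push_cast at h; linarith⟩))
  · exact selA_cell HA4.t0 HA4.t1 HA4.t2 rfl rfl rfl
      (by simp only [HA4.par]; push_cast; linarith) (by simp only [HA4.par]; push_cast; linarith)
      (fun p q h => Or.inr (Or.inr ⟨h3, by simp only [HA4.par] at h; push_cast at h; linarith⟩))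

theorem selD_cell {Q : PB} {l1 l2 : List ArcD} (hc : cellHK Q l1 l2 = true)
    (h1 : allArc l1 (arcOK (fa1 Q.P) (fd1 Q.P) (side1 Q) 0) = true)
    (h2 : allArc l2 (arcOK (fa2 Q.P) (fd2 Q.P) (side2 Q) 0) = true)
    (hlen : Q.P.dirs.length = 12) (hw1 : Q.P.wn = 10825) (hw2 : Q.P.wd = 10000)
    (hfs : Q.P.fs = 0) (hc3 : Q.P.c3 = 1) (hc4 : Q.c4 = 1) {k : ℝ}
    (hk0 : (Q.P.n0 : ℝ) ≤ k * Q.P.D) (hk1 : k * Q.P.D ≤ Q.P.n1) :
    ∃ D : Finset (ℂ × ℂ), D.card ≤ 12 ∧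
      ∀ x1 x2 : ℂ, ‖x1‖ ≤ 1 → ‖x2‖ ≤ 1 → ∃ u ∈ D, ∃ l w p q : ℝ, 0 ≤ p ∧ q ^ 2 ≤ p ^ 2 ∧
        (10825 / 10000) * ‖(⟨l + p, k * w + q⟩ : ℂ) * x1 - u.1‖ +
          ‖(⟨l, w⟩ : ℂ) * x2 - u.2‖ < l := by
  refine ⟨dset Q.P.dirs, dset_card hlen, fun x1 x2 hx1 hx2 => ?_⟩
  obtain ⟨d, hd, l, w, p, q, s, hp, hq, hs, hf, h⟩ := cellH hc h1 h2 hk0 hk1 x1 x2 hx1 hx2
  refine ⟨vec d, mem_dset hd, l, w, p, q, hp, ?_, ?_⟩
  · rw [hc3, hc4] at hq
    push_cast at hq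
    linarith
  · have hs0 : s = 0 := hf (by rw [hfs]; push_cast; rfl)
    rw [hs0, hw1, hw2, add_zero] at h
    push_cast at h
    exact h

theorem selD : SelD := by
  intro k hk0 hk1
  rcases le_total k (1 / 24) with h | h0
  · exact selD_cell HD0.t0 HD0.t1 HD0.t2 rfl rfl rfl rfl rfl rfl
      (by simp only [HD0.par]; push_cast; linarith) (by simp only [HD0.par]; push_cast; linarith)
  · exact selD_cell HD1.t0 HD1.t1 HD1.t2 rfl rfl rfl rfl rfl rfl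
      (by simp only [HD1.par]; push_cast; linarith) (by simp only [HD1.par]; push_cast; linarith)

theorem selB : SelB := by
  refine ⟨dset HB1.par.P.dirs, dset_card rfl, fun x1 x2 hx1 hx2 => ?_⟩
  obtain ⟨d, hd, l, w, p, q, s, hp, hq, hs, hf, h⟩ := cellH HB1.t0 HB1.t1 HB1.t2 (k := 1 / 3)
    (by simp only [HB1.par]; norm_num) (by simp only [HB1.par]; norm_num)
    x1 x2 hx1 hx2
  refine ⟨vec d, mem_dset hd, l, w, p, q, hp, ?_, ?_⟩
  · simp only [HB1.par] at hq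
    push_cast at hq
    linarith
  · have hs0 : s = 0 := hf (by simp only [HB1.par]; push_cast; rfl)
    have e1 : ((HB1.par.P.wn : ℤ) : ℝ) = 11548 := by simp only [HB1.par]; push_cast; rfl
    have e2 : ((HB1.par.P.wd : ℤ) : ℝ) = 10000 := by simp only [HB1.par]; push_cast; rfl
    rw [hs0, e1, e2, add_zero] at h
    have e3 : (1 : ℝ) / 3 * w + q = w / 3 + q := by ring
    rw [e3] at h
    exact h

theorem selK_cell {Q : PS} {l1 l2 : List ArcD} (hc : cellKK Q l1 l2 = true)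
    (h1 : allArc l1 (arcOK2 (ka1 Q) (kd1 Q) ex0 (sidk1 Q) 0) = true)
    (h2 : allArc l2 (arcOK2 (ka2 Q) (kd2 Q) ex0 (sidk2 Q) 0) = true)
    (hlen : Q.P.dirs.length = 12) {c κ : ℝ} (hcc : ((Q.cn : ℝ) / Q.cd) = c)
    (hκ : ((Q.kn : ℝ) / Q.kd) = κ) : SelK c κ := by
  refine ⟨dset Q.P.dirs, dset_card hlen, fun x1 x2 hx => ?_⟩
  obtain ⟨d, hd, l, w, p, s, a, z, hp, hs, ha, hz, h⟩ := cellK hc h1 h2 x1 x2 (by rw [hcc]; exact hx)
  refine ⟨vec d, mem_dset hd, l, w, p, s, a, z, hp, hs, ha, hz, ?_⟩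
  rw [hκ, mul_one] at h
  exact h

theorem selK_all : ∀ c : ℝ, 1 ≤ c → c ≤ 2 → ∃ c0 κ : ℝ, c0 ≤ c ∧ c ≤ κ ∧ SelK c0 κ := by
  intro c h1 h2
  rcases le_total c (5 / 4) with h | h0
  · exact ⟨1, 5 / 4, h1, h, selK_cell KA1.t0 KA1.t1 KA1.t2 rfl
      (by simp only [KA1.par]; norm_num) (by simp only [KA1.par]; norm_num)⟩
  rcases le_total c (3 / 2) with h | h3
  · exact ⟨5 / 4, 3 / 2, h0, h, selK_cell KA2.t0 KA2.t1 KA2.t2 rfl
      (by simp only [KA2.par]; norm_num) (by simp only [KA2.par]; norm_num)⟩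
  · exact ⟨3 / 2, 2, h3, h2, selK_cell KA3.t0 KA3.t1 KA3.t2 rfl
      (by simp only [KA3.par]; norm_num) (by simp only [KA3.par]; norm_num)⟩

end Pool.Agent.Zk84.M4
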