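import Pool.Agent.Zk84.M3.Stm

/-!
The statements of the modules of the proof of `CoverWeights 12`.
-/

set_option autoImplicit false

namespace Pool.Agent.Zk84.M4

open Complex Set Pool.Agent.Zk76.Wt
open Pool.Agent.Zk84.M3 (Inv Body W2 W3 W4)

/-- a planar set is illuminated by `m` directions -/
def Lit (m : ℕ) (P : Set ℂ) : Prop :=
  ∃ W : Finset ℂ, W.card ≤ m ∧ ∀ x ∈ P, ∃ w ∈ W, ∃ r : ℝ, 0 < r ∧ x + r • w ∈ interior P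

/-- L1: three directions, or a parallelogram -/
def L1 : Prop := ∀ P : Set ℂ, Convex ℝ P → IsCompact P → (interior P).Nonempty →
  Lit 3 P ∨ ∃ c a b : ℂ, P = {x | ∃ s t : ℝ, |s| ≤ 1 ∧ |t| ≤ 1 ∧ x = c + s • a + t • b}

/-- `x` lies in the face of `P` with the outer normal `e^(it)` -/
def InF (P : Set ℂ) (t : ℝ) (x : ℂ) : Prop :=
  x ∈ P ∧ ∀ y ∈ P, Real.cos t * y.re + Real.sin t * y.im ≤ Real.cos t * x.re + Real.sin t * x.im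

/-- the faces with the outer normals `e^(ia)` and `e^(ib)` meet -/
def Lk (P : Set ℂ) (a b : ℝ) : Prop := ∃ x, InF P a x ∧ InF P b x

/-- L10: illumination by three directions -/
def L10 : Prop := ∀ P : Set ℂ, Convex ℝ P → IsCompact P → (interior P).Nonempty →
  ∀ a b c : ℝ, a < b → b < c → c < a + Real.pi → ¬ Lk P a b → ¬ Lk P c (a + Real.pi) →
    ¬ Lk P (b + Real.pi) (c + Real.pi) → Lit 3 P

/-- L11: the parallelogram -/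
def L11 : Prop := ∀ P : Set ℂ, Convex ℝ P → IsCompact P → (interior P).Nonempty →
  (∀ a b c : ℝ, a < b → b < c → c < a + Real.pi → Lk P a b ∨ Lk P c (a + Real.pi) ∨
    Lk P (b + Real.pi) (c + Real.pi)) →
  ∃ c a b : ℂ, P = {x | ∃ s t : ℝ, |s| ≤ 1 ∧ |t| ≤ 1 ∧ x = c + s • a + t • b}

theorem l1_of (h0 : L10) (h1 : L11) : L1 := by
  intro P hP hc hi
  by_cases h : ∀ a b c : ℝ, a < b → b < c → c < a + Real.pi → Lk P a b ∨ Lk P c (a + Real.pi) ∨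
    Lk P (b + Real.pi) (c + Real.pi)
  · exact Or.inr (h1 P hP hc hi h)
  · push Not at h
    obtain ⟨a, b, c, hab, hbc, hca, n1, n2, n3⟩ := h
    exact Or.inl (h0 P hP hc hi a b c hab hbc hca n1 n2 n3)

/-- W5: the weight zero -/
def W5 : Prop := ∀ K : Set (ℂ × ℂ), Convex ℝ K → IsCompact K → (interior K).Nonempty →
  (∀ (t : ℝ) (x : ℂ × ℂ), x ∈ K → (x.1, Complex.exp ((t : ℂ) * Complex.I) * x.2) ∈ K) → Cov 12 K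

/-- W8: the weight one -/
def W8 : Prop := ∀ K : Set (ℂ × ℂ), Convex ℝ K → IsCompact K → (interior K).Nonempty →
  (∀ z : ℂ, ‖z‖ = 1 → ∀ x ∈ K, z • x ∈ K) → Cov 12 K

/-- the selection statement for the weights between `1/4` and `1` -/
def SelA : Prop := ∀ k : ℝ, 1 / 4 ≤ k → k ≤ 1 → ∃ D : Finset (ℂ × ℂ), D.card ≤ 12 ∧
  ∀ x1 x2 : ℂ, ‖x1‖ ≤ 1 → ‖x2‖ ≤ 1 → ∃ u ∈ D, ∃ l w p q s : ℝ, 0 ≤ p ∧ 3 * q ^ 2 ≤ p ^ 2 ∧
    0 ≤ s ∧ ‖(⟨l + p, k * w + q⟩ : ℂ) * x1 - u.1‖ + ‖(⟨l + s, w⟩ : ℂ) * x2 - u.2‖ < l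

/-- the selection statement for the weights between `0` and `1/4` -/
def SelD : Prop := ∀ k : ℝ, 0 ≤ k → k ≤ 1 / 4 → ∃ D : Finset (ℂ × ℂ), D.card ≤ 12 ∧
  ∀ x1 x2 : ℂ, ‖x1‖ ≤ 1 → ‖x2‖ ≤ 1 → ∃ u ∈ D, ∃ l w p q : ℝ, 0 ≤ p ∧ q ^ 2 ≤ p ^ 2 ∧
    (10825 / 10000) * ‖(⟨l + p, k * w + q⟩ : ℂ) * x1 - u.1‖ +
      ‖(⟨l, w⟩ : ℂ) * x2 - u.2‖ < l

/-- the selection statement for the weight `1/3` -/
def SelB : Prop := ∃ D : Finset (ℂ × ℂ), D.card ≤ 12 ∧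
  ∀ x1 x2 : ℂ, ‖x1‖ ≤ 1 → ‖x2‖ ≤ 1 → ∃ u ∈ D, ∃ l w p q : ℝ, 0 ≤ p ∧ 3 * q ^ 2 ≤ p ^ 2 ∧
    (11548 / 10000) * ‖(⟨l + p, w / 3 + q⟩ : ℂ) * x1 - u.1‖ +
      ‖(⟨l, w⟩ : ℂ) * x2 - u.2‖ < l

/-- the selection statement for the weight `1/2` -/
def SelC : Prop := ∀ r : ℝ, 0 ≤ r → r ≤ 1 → ∃ D : Finset (ℂ × ℂ), D.card ≤ 12 ∧
  ∀ x1 x2 : ℂ, ‖x1‖ ≤ 1 → ‖x2‖ ≤ 1 → ∃ u ∈ D, ∃ l w b1 b2 a : ℝ, ∃ e1 e2 z : ℂ,
    0 ≤ b1 ∧ 0 ≤ b2 ∧ 0 ≤ a ∧ ‖e1‖ = 1 ∧ ‖e2‖ = 1 ∧ ‖z‖ ≤ 1 ∧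
    min (√2) (1 + r) *
        ‖((⟨l, w / 2⟩ : ℂ) + b1 * (1 - e1) + b2 * (1 - e2)) * x1 - a * z - u.1‖ +
      ‖((⟨l, w⟩ : ℂ) + b1 * (1 - e1 ^ 2) + b2 * (1 - e2 ^ 2)) * x2 - r * a * z ^ 2 - u.2‖ +
      a < l

/-- W6: the weights between `0` and `1`, apart from `1/2` -/
def W6 : Prop := W2 → W3 → W4 → SelA → SelB → SelD → ∀ k : ℝ, 0 < k → k < 1 → k ≠ 1 / 2 →
  ∀ K, Body k K → Cov 12 K

/-- W7: the weight `1/2` -/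
def W7 : Prop := W2 → W4 → SelC → ∀ K, Body (1 / 2) K → Cov 12 K

theorem coverWeights_of (w1 : Pool.Agent.Zk84.M3.W1) (w2 : W2) (w3 : W3) (w4 : W4) (w5 : W5)
    (w6 : W6) (w7 : W7) (w8 : W8) (hA : SelA) (hB : SelB) (hC : SelC) (hD : SelD) :
    CoverWeights 12 := by
  intro k hk0 hk1 K hK hc hi hinv
  rcases hk0.eq_or_lt with h0 | h0
  · refine w5 K hK hc hi fun t x hx => ?_
    have := hinv t x hx
    rw [← h0] at this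
    simpa using this
  rcases hk1.eq_or_lt with h1 | h1
  · refine w8 K hK hc hi fun z hz x hx => ?_
    have := hinv z.arg x hx
    rw [h1] at this
    have e : Complex.exp ((z.arg : ℂ) * Complex.I) = z := by
      have := Complex.norm_mul_exp_arg_mul_I z
      rw [hz] at this
      simpa using this
    have e2 : (((1 : ℝ) : ℂ)) * (z.arg : ℂ) = (z.arg : ℂ) := by push_cast; ring
    rw [e2, e] at this
    exact this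
  · by_cases h2 : k = 1 / 2
    · subst h2
      exact w1 _ h0 h1 12 (fun K hK => w7 w2 w4 hC K hK) K hK hc hi hinv
    · exact w1 _ h0 h1 12 (fun K hK => w6 w2 w3 w4 hA hB hD k h0 h1 h2 K hK) K hK hc hi hinv

end Pool.Agent.Zk84.M4
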