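import Pool.Agent.Zk84.M4.W6

/-!
The selection statement for the weights between `1/4` and `1` with larger cones near `1`.
-/

set_option autoImplicit false

namespace Pool.Agent.Zk84.M4

open Complex Set Pool.Agent.Zk76.Wt
open Pool.Agent.Zk84.M3 (Inv Body W2 W3 W4)

/-- the moves of the first coordinate -/
def Cone (k p q : ℝ) : Prop :=
  3 * q ^ 2 ≤ p ^ 2 ∨ 3 / 4 ≤ k ∧ q ^ 2 ≤ p ^ 2 ∨ 5 / 6 ≤ k ∧ q ^ 2 ≤ 3 * p ^ 2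

/-- W3c: rotations of the first coordinate -/
def W3c : Prop := ∀ (k : ℝ), 1 / 4 ≤ k → k < 1 → k ≠ 1 / 2 → ∀ K, Body k K → ∀ p q : ℝ, 0 ≤ p →
  Cone k p q →
  ∃ (e1 e2 : ℂ) (b1 b2 : ℝ), 0 ≤ b1 ∧ 0 ≤ b2 ∧ (∀ x ∈ K, (e1 * x.1, x.2) ∈ K) ∧
    (∀ x ∈ K, (e2 * x.1, x.2) ∈ K) ∧ (⟨p, q⟩ : ℂ) = b1 * (1 - e1) + b2 * (1 - e2)

/-- the selection statement for the weights between `1/4` and `1` -/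
def SelA2 : Prop := ∀ k : ℝ, 1 / 4 ≤ k → k ≤ 1 → ∃ D : Finset (ℂ × ℂ), D.card ≤ 12 ∧
  ∀ x1 x2 : ℂ, ‖x1‖ ≤ 1 → ‖x2‖ ≤ 1 → ∃ u ∈ D, ∃ l w p q s : ℝ, 0 ≤ p ∧ Cone k p q ∧
    0 ≤ s ∧ ‖(⟨l + p, k * w + q⟩ : ℂ) * x1 - u.1‖ + ‖(⟨l + s, w⟩ : ℂ) * x2 - u.2‖ < l

/-- W6b: the weights between `0` and `1`, apart from `1/2` -/
def W6b : Prop := W2 → W3 → W3c → W4 → SelA2 → SelB → SelD → ∀ k : ℝ, 0 < k → k < 1 →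
  k ≠ 1 / 2 → ∀ K, Body k K → Cov 12 K

end Pool.Agent.Zk84.M4
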