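import Pool.Agent.Zk84.M4.Stm
import Pool.Agent.Zk76.M3W6

/-!
The weights between `0` and `1`, apart from `1/2` (module W6), with twelve directions.
-/

set_option autoImplicit false
set_option maxHeartbeats 1000000

namespace Pool.Agent.Zk84.M4.W6m

open Complex Set Pool.Agent.Zk76.Wt Pool.Agent.Zk84.M3 Pool.Agent.Zk76.M3W6

theorem w6 : Pool.Agent.Zk84.M4.W6 := by
  intro w2 w3 w4 hA hB hD k hk hk1 hk2 K h
  obtain ⟨hax2, hax1, hproj⟩ := w2 k hk hk1 K h
  have hmain : ∀ D : Finset (ℂ × ℂ), D.card ≤ 12 →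
      (∀ x ∈ K, ∃ u ∈ D, ∃ ε : ℝ, 0 < ε ∧ x - ε • u ∈ interior K) → Cov 12 K := by
    intro D hD h1
    obtain ⟨S, hS, hcov⟩ := Pool.Agent.H765R3.Had.cover_of_dirs h.conv h.comp D h1
    exact ⟨S, hS.trans hD, hcov⟩
  have hpi := Real.pi_pos
  by_cases h1 : k ≤ 1 / 4
  · -- small weights
    obtain ⟨D, hD1, hD2⟩ := hD k hk.le h1
    refine hmain D hD1 fun x hx => ?_
    obtain ⟨u, hu, l, w, p, q, hp, hpq, hl⟩ := hD2 x.1 x.2 (h.le1 x hx) (h.le2 x hx)
    refine ⟨u, hu, ?_⟩
    have hcos : 1 / (10825 / 10000 : ℝ) ≤ Real.cos (k * Real.pi / 2) :=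
      cos_pi_eight.trans (Real.cos_le_cos_of_nonneg_of_le_pi (by positivity) (by linarith)
        (by nlinarith))
    have hρ : 0 < Real.cos (k * Real.pi / 2) := lt_of_lt_of_le (by norm_num) hcos
    refine core hk hk1 hk2 h w3 w4 hρ hax1 hax2 hx hp (Or.inl ⟨h1, hpq⟩) (le_refl 0)
      (Or.inl rfl) (l := l) (w := w) ?_
    rw [add_zero]
    refine lt_of_le_of_lt (add_le_add ?_ le_rfl) hl
    rw [div_le_iff₀ hρ]
    have h3 : 1 ≤ 10825 / 10000 * Real.cos (k * Real.pi / 2) := by
      have := mul_le_mul_of_nonneg_left hcos (by norm_num : (0 : ℝ) ≤ 10825 / 10000)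
      linarith
    nlinarith [mul_le_mul_of_nonneg_left h3
      (norm_nonneg ((⟨l + p, k * w + q⟩ : ℂ) * x.1 - u.1))]
  push Not at h1
  by_cases h3 : k = 1 / 3
  · -- the weight `1/3`
    obtain ⟨D, hD1, hD2⟩ := hB
    refine hmain D hD1 fun x hx => ?_
    obtain ⟨u, hu, l, w, p, q, hp, hpq, hl⟩ := hD2 x.1 x.2 (h.le1 x hx) (h.le2 x hx)
    refine ⟨u, hu, ?_⟩
    have hcos : 1 / (11548 / 10000 : ℝ) ≤ Real.cos (k * Real.pi / 2) := by
      have : k * Real.pi / 2 = Real.pi / 6 := by rw [h3]; ring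
      rw [this]
      exact cos_pi_six
    have hρ : 0 < Real.cos (k * Real.pi / 2) := lt_of_lt_of_le (by norm_num) hcos
    refine core hk hk1 hk2 h w3 w4 hρ hax1 hax2 hx hp (Or.inr ⟨h1.le, hpq⟩) (le_refl 0)
      (Or.inl rfl) (l := l) (w := w) ?_
    rw [add_zero]
    have hkw : k * w = w / 3 := by rw [h3]; ring
    rw [hkw]
    refine lt_of_le_of_lt (add_le_add ?_ le_rfl) hl
    rw [div_le_iff₀ hρ]
    have h3 : 1 ≤ 11548 / 10000 * Real.cos (k * Real.pi / 2) := by
      have := mul_le_mul_of_nonneg_left hcos (by norm_num : (0 : ℝ) ≤ 11548 / 10000)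
      linarith
    nlinarith [mul_le_mul_of_nonneg_left h3
      (norm_nonneg ((⟨l + p, w / 3 + q⟩ : ℂ) * x.1 - u.1))]
  · -- the other weights
    have hint : ∀ n : ℕ, k * n ≠ 1 := by
      intro n hn
      have hn0 : (0 : ℝ) < n := by
        rcases Nat.eq_zero_or_pos n with h5 | h5
        · rw [h5] at hn; simp at hn
        · exact_mod_cast h5
      have h5 : (1 : ℝ) < n := by nlinarith
      have h6 : (n : ℝ) < 4 := by nlinarith
      have h7 : 1 < n := by exact_mod_cast h5
      have h8 : n < 4 := by exact_mod_cast h6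
      interval_cases n
      · apply hk2
        push_cast at hn
        linarith
      · apply h3
        push_cast at hn
        linarith
    have hpr := hproj hint
    have hax1' : ∀ z : ℂ, ‖z‖ ≤ 1 → (z, (0 : ℂ)) ∈ K := by
      obtain ⟨x0, hx0, hx1⟩ := h.hit1
      have h5 := hpr x0 hx0
      -- rotations
      have h6 : ∀ t : ℝ, (Complex.exp ((t : ℂ) * I) * x0.1, (0 : ℂ)) ∈ K := by
        intro t
        have h7 := h.inv (t / k) _ h5
        have e1 : (k : ℂ) * ((t / k : ℝ) : ℂ) * I = (t : ℂ) * I := by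
          have : (k : ℂ) ≠ 0 := by exact_mod_cast hk.ne'
          push_cast
          field_simp
        rw [e1] at h7
        simpa using h7
      have h8 : ∀ z : ℂ, ‖z‖ = 1 → (z, (0 : ℂ)) ∈ K := by
        intro z hz
        have h9 := h6 (z / x0.1).arg
        have e2 : Complex.exp (((z / x0.1).arg : ℂ) * I) = z / x0.1 := by
          have h10 := Complex.norm_mul_exp_arg_mul_I (z / x0.1)
          rw [norm_div, hz, hx1] at h10
          simpa using h10
        rw [e2, div_mul_cancel₀] at h9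
        · exact h9
        · intro h11
          rw [h11] at hx1
          simp at hx1
      intro z hz
      rcases (norm_nonneg z).eq_or_lt with h9 | h9
      · have : z = 0 := norm_eq_zero.1 h9.symm
        rw [this]
        exact interior_subset h.zero
      · have h10 := h8 (z / ‖z‖) (by
          rw [norm_div, Complex.norm_real, norm_norm, div_self h9.ne'])
        have h11 := h.conv h10 (interior_subset h.zero : (0 : ℂ × ℂ) ∈ K) h9.le
          (sub_nonneg.2 hz) (by ring)
        have e3 : ‖z‖ • ((z / ‖z‖, (0 : ℂ)) : ℂ × ℂ) + (1 - ‖z‖) • (0 : ℂ × ℂ) = (z, 0) := by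
          have : ((‖z‖ : ℝ) : ℂ) ≠ 0 := by exact_mod_cast h9.ne'
          ext1
          · simp only [Prod.fst_add, Prod.smul_fst, Complex.real_smul, smul_zero, add_zero]
            field_simp
          · simp
        rw [e3] at h11
        exact h11
    obtain ⟨D, hD1, hD2⟩ := hA k h1.le hk1.le
    refine hmain D hD1 fun x hx => ?_
    obtain ⟨u, hu, l, w, p, q, s, hp, hpq, hs, hl⟩ := hD2 x.1 x.2 (h.le1 x hx) (h.le2 x hx)
    refine ⟨u, hu, ?_⟩
    refine core hk hk1 hk2 h w3 w4 one_pos hax1' hax2 hx hp (Or.inr ⟨h1.le, hpq⟩) hs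
      (Or.inr (hpr x hx)) (l := l) (w := w) ?_
    rw [div_one]
    exact hl

end Pool.Agent.Zk84.M4.W6m
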