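import Pool.Agent.Zk84.M4.Stm
import Pool.Agent.Zk86.M3W7

/-!
The weight `1/2` (module W7), with twelve directions.
-/

set_option autoImplicit false

namespace Pool.Agent.Zk84.M4.W7g

open Complex Set Pool.Agent.Zk76.Wt Pool.Agent.Zk84.M3 Pool.Agent.Zk86.M3

/-- the selection statement for the weight `1/2` with `m` directions -/
def SelCm (m : ℕ) : Prop := ∀ r : ℝ, 0 ≤ r → r ≤ 1 → ∃ D : Finset (ℂ × ℂ), D.card ≤ m ∧
  ∀ x1 x2 : ℂ, ‖x1‖ ≤ 1 → ‖x2‖ ≤ 1 → ∃ u ∈ D, ∃ l w b1 b2 a : ℝ, ∃ e1 e2 z : ℂ,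
    0 ≤ b1 ∧ 0 ≤ b2 ∧ 0 ≤ a ∧ ‖e1‖ = 1 ∧ ‖e2‖ = 1 ∧ ‖z‖ ≤ 1 ∧
    min (√2) (1 + r) *
        ‖((⟨l, w / 2⟩ : ℂ) + b1 * (1 - e1) + b2 * (1 - e2)) * x1 - a * z - u.1‖ +
      ‖((⟨l, w⟩ : ℂ) + b1 * (1 - e1 ^ 2) + b2 * (1 - e2 ^ 2)) * x2 - r * a * z ^ 2 - u.2‖ +
      a < l

theorem w7g {m : ℕ} : Pool.Agent.Zk84.M3.W2 → Pool.Agent.Zk84.M3.W4 → SelCm m →
    ∀ K, Pool.Agent.Zk84.M3.Body (1 / 2) K → Pool.Agent.Zk76.Wt.Cov m K := by
  classical
  intro hW2 hW4 hC K hB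
  have h0K : (0 : ℂ × ℂ) ∈ K := interior_subset hB.zero
  obtain ⟨hax2, hax1, -⟩ := hW2 (1 / 2) (by norm_num) (by norm_num) K hB
  -- the point `(1, c)`
  obtain ⟨x0, hx0, hx01⟩ := hB.hit1
  obtain ⟨c, hcK⟩ : ∃ c : ℂ, ((1 : ℂ), c) ∈ K := by
    have h1 := rot hB (ζ := (starRingEnd ℂ) x0.1) (by rw [RCLike.norm_conj]; exact hx01) hx0
    have h2 : (starRingEnd ℂ) x0.1 * x0.1 = 1 := by
      rw [Complex.conj_mul', hx01]
      simp
    rw [h2] at h1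
    exact ⟨_, h1⟩
  set r : ℝ := ‖c‖ with hr
  have hr0 : 0 ≤ r := norm_nonneg c
  have hr1 : r ≤ 1 := hB.le2 _ hcK
  obtain ⟨κ, hκ, hcκ⟩ := polar c
  have hκ0 : κ ≠ 0 := by
    rintro rfl
    simp at hκ
  -- `(ζ, c ζ ^ 2)`
  have F0 : ∀ ζ : ℂ, ‖ζ‖ = 1 → (ζ, c * ζ ^ 2) ∈ K := by
    intro ζ hζ
    have := rot hB hζ hcK
    simpa [mul_comm] using this
  -- `(ζ / (1 + r), 0)`
  have F3' : ∀ ζ : ℂ, ‖ζ‖ = 1 → ((1 / (1 + r) : ℝ) • ζ, (0 : ℂ)) ∈ K := by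
    intro ζ hζ
    have h1 := F0 ζ hζ
    have h2 : ((0 : ℂ), -(κ * ζ ^ 2)) ∈ K := hax2 _ (by rw [norm_neg, norm_mul, norm_pow, hκ, hζ]; simp)
    have h3 := hB.conv h1 h2 (a := 1 / (1 + r)) (b := r / (1 + r)) (by positivity) (by positivity)
      (by field_simp)
    have h4 : (1 / (1 + r)) • (ζ, c * ζ ^ 2) + (r / (1 + r)) • ((0 : ℂ), -(κ * ζ ^ 2)) =
        ((1 / (1 + r) : ℝ) • ζ, (0 : ℂ)) := by
      refine Prod.ext ?_ ?_
      · simp
      · have h5 : (1 + (r : ℂ)) ≠ 0 := by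
          exact_mod_cast (by positivity : (0 : ℝ) < 1 + r).ne'
        simp only [Prod.smul_snd, Prod.snd_add, Complex.real_smul]
        rw [hcκ]
        push_cast
        field_simp
        ring
    rw [h4] at h3
    exact h3
  have F3 : ∀ z : ℂ, (1 + r) * ‖z‖ ≤ 1 → (z, (0 : ℂ)) ∈ K := by
    intro z hz
    obtain ⟨ζ, hζ, hz'⟩ := polar z
    have h1 := shrink hB.conv h0K (F3' ζ hζ) (t := (1 + r) * ‖z‖) (by positivity) hz
    have h2 : ((1 + r) * ‖z‖) • (((1 / (1 + r) : ℝ) • ζ, (0 : ℂ)) : ℂ × ℂ) = (z, 0) := by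
      refine Prod.ext ?_ ?_
      · have h5 : (1 + (r : ℂ)) ≠ 0 := by
          exact_mod_cast (by positivity : (0 : ℝ) < 1 + r).ne'
        simp only [Prod.smul_fst, Complex.real_smul]
        conv_rhs => rw [hz']
        push_cast
        field_simp
      · simp
    rw [h2] at h1
    exact h1
  have F2 : ∀ z : ℂ, √2 * ‖z‖ ≤ 1 → (z, (0 : ℂ)) ∈ K := by
    intro z hz
    refine hax1 z ?_
    have h1 : (1 / 2 : ℝ) * Real.pi / 2 = Real.pi / 4 := by ring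
    rw [h1, Real.cos_pi_div_four]
    have h2 : √2 * √2 = 2 := Real.mul_self_sqrt (by norm_num)
    have h3 : 0 < √2 := by positivity
    nlinarith
  have FM : ∀ z : ℂ, min (√2) (1 + r) * ‖z‖ ≤ 1 → (z, (0 : ℂ)) ∈ K := by
    intro z hz
    rcases min_choice (√2) (1 + r) with h | h
    · rw [h] at hz
      exact F2 z hz
    · rw [h] at hz
      exact F3 z hz
  -- `(z, c z ^ 2)`
  have F4 : ∀ z : ℂ, ‖z‖ ≤ 1 → (z, c * z ^ 2) ∈ K := by
    intro z hz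
    obtain ⟨ζ, hζ, hz'⟩ := polar z
    set t : ℝ := ‖z‖ with ht
    have ht0 : 0 ≤ t := norm_nonneg z
    obtain ⟨p, hp, hpe⟩ := comb hB.conv (F0 ζ hζ) (F3' ζ hζ) (a := t ^ 2) (b := (t - t ^ 2) * (1 + r))
      (by positivity) (mul_nonneg (by nlinarith) (by positivity))
    have h1 := shrink hB.conv h0K hp (t := t ^ 2 + (t - t ^ 2) * (1 + r))
      (add_nonneg (by positivity) (mul_nonneg (by nlinarith) (by positivity)))
      (by nlinarith [sq_nonneg (1 - t), mul_nonneg ht0 (sub_nonneg.2 hz)])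
    rw [← hpe] at h1
    have h2 : t ^ 2 • (ζ, c * ζ ^ 2) + ((t - t ^ 2) * (1 + r)) •
        (((1 / (1 + r) : ℝ) • ζ, (0 : ℂ)) : ℂ × ℂ) = (z, c * z ^ 2) := by
      have h5 : (1 + (r : ℂ)) ≠ 0 := by
        exact_mod_cast (by positivity : (0 : ℝ) < 1 + r).ne'
      refine Prod.ext ?_ ?_
      · simp only [Prod.smul_fst, Prod.fst_add, Complex.real_smul]
        rw [hz']
        push_cast
        field_simp
        ring
      · simp only [Prod.smul_snd, Prod.snd_add, Complex.real_smul]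
        rw [hz']
        push_cast
        ring
    rw [h2] at h1
    exact h1
  have hM0 : 0 < min (√2) (1 + r) := lt_min (by positivity) (by positivity)
  -- the directions
  obtain ⟨D, hDc, hD⟩ := hC r hr0 hr1
  obtain ⟨S, hS, hcov⟩ := Pool.Agent.H765R3.Had.cover_of_dirs hB.conv hB.comp
    (D.image fun u => (u.1, κ * u.2)) (by
      intro x hx
      have hκ' : ‖κ⁻¹‖ = 1 := by rw [norm_inv, hκ, inv_one]
      obtain ⟨u, hu, l, w, b1, b2, a, e1, e2, z, hb1, hb2, ha, he1, he2, hz, hlt⟩ :=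
        hD x.1 (κ⁻¹ * x.2) (hB.le1 x hx) (by rw [norm_mul, hκ', one_mul]; exact hB.le2 x hx)
      refine ⟨(u.1, κ * u.2), Finset.mem_image_of_mem _ hu, ?_⟩
      set v1 : ℂ := ((⟨l, w / 2⟩ : ℂ) + b1 * (1 - e1) + b2 * (1 - e2)) * x.1 - a * z - u.1 with hv1
      set v2 : ℂ := ((⟨l, w⟩ : ℂ) + b1 * (1 - e1 ^ 2) + b2 * (1 - e2 ^ 2)) * (κ⁻¹ * x.2)
        - r * a * z ^ 2 - u.2 with hv2
      obtain ⟨y, hy, hye⟩ := comb hB.conv (rot hB he1 hx) (rot hB he2 hx) hb1 hb2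
      -- the three summands
      obtain ⟨p1, hp1, hp1e⟩ : ∃ p ∈ K, (v1, (0 : ℂ)) = (min (√2) (1 + r) * ‖v1‖) • p := by
        rcases eq_or_ne v1 0 with h | h
        · exact ⟨0, h0K, by rw [h]; simp⟩
        · have hpos : 0 < min (√2) (1 + r) * ‖v1‖ := mul_pos hM0 (norm_pos_iff.2 h)
          refine ⟨((min (√2) (1 + r) * ‖v1‖)⁻¹ • v1, 0), FM _ ?_, ?_⟩
          · rw [norm_smul, Real.norm_of_nonneg (inv_nonneg.2 hpos.le)]
            have : min (√2) (1 + r) * ((min (√2) (1 + r) * ‖v1‖)⁻¹ * ‖v1‖) =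
                (min (√2) (1 + r) * ‖v1‖) * (min (√2) (1 + r) * ‖v1‖)⁻¹ := by ring
            rw [this, mul_inv_cancel₀ hpos.ne']
          · refine Prod.ext ?_ ?_
            · simp only [Prod.smul_fst]
              rw [smul_smul, mul_inv_cancel₀ hpos.ne', one_smul]
            · simp
      obtain ⟨p2, hp2, hp2e⟩ : ∃ p ∈ K, ((0 : ℂ), κ * v2) = ‖v2‖ • p := by
        obtain ⟨ζ, hζ, hζe⟩ := polar v2
        refine ⟨(0, κ * ζ), hax2 _ (by rw [norm_mul, hκ, hζ, one_mul]), ?_⟩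
        refine Prod.ext (by simp) ?_
        simp only [Prod.smul_snd, Complex.real_smul]
        conv_lhs => rw [hζe]
        ring
      obtain ⟨q, hq, hqe⟩ := comb hB.conv hp1 hp2 (a := min (√2) (1 + r) * ‖v1‖) (b := ‖v2‖)
        (by positivity) (norm_nonneg _)
      obtain ⟨q', hq', hqe'⟩ := comb hB.conv hq (F4 z hz)
        (a := min (√2) (1 + r) * ‖v1‖ + ‖v2‖) (b := a) (by positivity) ha
      refine hW4 (1 / 2) K hB x (u.1, κ * u.2) y q' hx hy hq' l w (b1 + b2)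
        (min (√2) (1 + r) * ‖v1‖ + ‖v2‖ + a) (add_nonneg hb1 hb2) (by positivity) hlt ?_
      rw [← hqe', ← hqe, ← hp1e, ← hp2e, smul_sub, ← hye]
      refine Prod.ext ?_ ?_
      · simp only [Prod.fst_sub, Prod.fst_add, Prod.smul_fst, Complex.real_smul]
        rw [hv1]
        have h6 : (⟨l, w / 2⟩ : ℂ) = l + w / 2 * I := by
          apply Complex.ext <;> simp
        rw [h6]
        push_cast
        ring
      · simp only [Prod.snd_sub, Prod.snd_add, Prod.smul_snd, Complex.real_smul]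
        rw [hv2]
        have h6 : (⟨l, w⟩ : ℂ) = l + w * I := by
          apply Complex.ext <;> simp
        rw [h6]
        have h7 : c * z ^ 2 = r * (κ * z ^ 2) := by
          rw [hcκ, ← hr]
          ring
        rw [h7]
        push_cast
        field_simp
        ring)
  exact ⟨S, hS.trans (Finset.card_image_le.trans hDc), hcov⟩

end Pool.Agent.Zk84.M4.W7g
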