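import Pool.Agent.Zk84.M4.Stm

/-!
Circular bodies in `ℂ × ℂ` with twelve directions (module W8).
-/

set_option autoImplicit false

open Set Topology

namespace Pool.Agent.Zk84.M4

open Pool.Agent.Zk84.HC (cover_equiv)

/-- the selection statement for the weight `1` -/
def SelK : Prop := ∃ D : Finset (ℂ × ℂ), D.card ≤ 12 ∧
  ∀ x1 x2 : ℂ, ‖x1‖ ≤ 1 → ‖x2‖ ≤ 1 → ∃ u ∈ D, ∃ l w p s : ℝ, 0 ≤ p ∧ 0 ≤ s ∧
    ‖(⟨l + p, w⟩ : ℂ) * x1 - u.1‖ + ‖(⟨l + s, w⟩ : ℂ) * x2 - u.2‖ < l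

/-- the direction `-u` leads from `x` into the interior -/
theorem illuminate {K : Set (ℂ × ℂ)} (hK : Convex ℝ K) (hb : Balanced ℂ K) (h0 : K ∈ 𝓝 0)
    (h1 : ((1 : ℂ), (0 : ℂ)) ∈ K) (h2 : ((0 : ℂ), (1 : ℂ)) ∈ K) {x u : ℂ × ℂ} (hx : x ∈ K)
    (hs : ‖x.1‖ ≤ 1 ∧ ‖x.2‖ ≤ 1) {l w p s : ℝ} (hp : 0 ≤ p) (hs0 : 0 ≤ s)
    (h : ‖(⟨l + p, w⟩ : ℂ) * x.1 - u.1‖ + ‖(⟨l + s, w⟩ : ℂ) * x.2 - u.2‖ < l) :
    ∃ ε : ℝ, 0 < ε ∧ x - ε • u ∈ interior K := by
  set q := gaugeSeminorm hb hK (absorbent_nhds_zero h0) with hq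
  have pK : ∀ y ∈ K, q y ≤ 1 := fun y hy => gauge_le_one_of_mem hy
  have k1 : (x.1, (0 : ℂ)) ∈ K := by
    have := balanced_iff_smul_mem.1 hb hs.1 h1
    simpa using this
  have k2 : ((0 : ℂ), x.2) ∈ K := by
    have := balanced_iff_smul_mem.1 hb hs.2 h2
    simpa using this
  set μ : ℂ := ⟨l + p + s, w⟩ with hμ
  set a : ℂ := (⟨l + p, w⟩ : ℂ) * x.1 - u.1 with ha
  set b : ℂ := (⟨l + s, w⟩ : ℂ) * x.2 - u.2 with hb'
  set A := ‖a‖ + ‖b‖ with hA
  set ε := (l - A) / (‖μ‖ ^ 2 + 1) with hε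
  have hpos : (0 : ℝ) < ‖μ‖ ^ 2 + 1 := by positivity
  have ε0 : 0 < ε := div_pos (by linarith) hpos
  have ε1 : ε * ‖μ‖ ^ 2 < l - A := by
    rw [hε, div_mul_eq_mul_div, div_lt_iff₀ hpos]
    nlinarith [norm_nonneg μ]
  refine ⟨ε, ε0, ?_⟩
  have hre : μ.re = l + p + s := rfl
  have eμ : μ = (l : ℂ) + p + s + w * Complex.I := by
    apply Complex.ext <;> simp [hμ]
  have ea : (⟨l + p, w⟩ : ℂ) = (l : ℂ) + p + w * Complex.I := by
    apply Complex.ext <;> simp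
  have eb : (⟨l + s, w⟩ : ℂ) = (l : ℂ) + s + w * Complex.I := by
    apply Complex.ext <;> simp
  have hdec : x - ε • u = (1 - (ε : ℂ) * μ) • x +
      ((((ε * p : ℝ) : ℂ) • ((0 : ℂ), x.2) + ((ε * s : ℝ) : ℂ) • (x.1, (0 : ℂ))) +
        (((ε : ℂ) * a) • ((1 : ℂ), (0 : ℂ)) + ((ε : ℂ) * b) • ((0 : ℂ), (1 : ℂ)))) := by
    refine Prod.ext ?_ ?_
    · simp only [Prod.fst_sub, Prod.smul_fst, Prod.fst_add, smul_eq_mul, Complex.real_smul, ha,
        ea, eμ]
      push_cast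
      ring
    · simp only [Prod.snd_sub, Prod.smul_snd, Prod.snd_add, smul_eq_mul, Complex.real_smul, hb',
        eb, eμ]
      push_cast
      ring
  have hn : ‖(1 - (ε : ℂ) * μ)‖ ≤ 1 - ε * μ.re + (ε * ‖μ‖) ^ 2 := by
    have hsq : ‖(1 - (ε : ℂ) * μ)‖ ^ 2 = 1 - 2 * (ε * μ.re) + (ε * ‖μ‖) ^ 2 := by
      rw [mul_pow, Complex.sq_norm, Complex.sq_norm, Complex.normSq_apply, Complex.normSq_apply]
      simp
      ring
    have hle : (ε * μ.re) ^ 2 ≤ (ε * ‖μ‖) ^ 2 := by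
      have := Complex.abs_re_le_norm μ
      have h3 : μ.re ^ 2 ≤ ‖μ‖ ^ 2 := sq_le_sq' (by linarith [(abs_le.1 this).1]) (abs_le.1 this).2
      nlinarith [sq_nonneg ε]
    have hnn : 0 ≤ 1 - ε * μ.re + (ε * ‖μ‖) ^ 2 := by nlinarith [sq_nonneg (ε * μ.re - 1 / 2)]
    refine le_of_sq_le_sq ?_ hnn
    rw [hsq]
    nlinarith [sq_nonneg (ε * μ.re - (ε * ‖μ‖) ^ 2), sq_nonneg (ε * ‖μ‖)]
  have hle : q (x - ε • u) < 1 := by
    rw [hdec]
    refine lt_of_le_of_lt (map_add_le_add q _ _) ?_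
    have a1 : q ((1 - (ε : ℂ) * μ) • x) ≤ 1 - ε * μ.re + (ε * ‖μ‖) ^ 2 := by
      rw [map_smul_eq_mul]
      calc ‖(1 - (ε : ℂ) * μ)‖ * q x ≤ ‖(1 - (ε : ℂ) * μ)‖ * 1 :=
            mul_le_mul_of_nonneg_left (pK x hx) (norm_nonneg _)
        _ ≤ _ := by rw [mul_one]; exact hn
    have a2 : q (((ε : ℂ) * a) • ((1 : ℂ), (0 : ℂ))) ≤ ε * ‖a‖ := by
      rw [map_smul_eq_mul, norm_mul, Complex.norm_real, Real.norm_of_nonneg ε0.le]
      exact mul_le_of_le_one_right (by positivity) (pK _ h1)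
    have a3 : q (((ε : ℂ) * b) • ((0 : ℂ), (1 : ℂ))) ≤ ε * ‖b‖ := by
      rw [map_smul_eq_mul, norm_mul, Complex.norm_real, Real.norm_of_nonneg ε0.le]
      exact mul_le_of_le_one_right (by positivity) (pK _ h2)
    have a5 : q (((ε * p : ℝ) : ℂ) • ((0 : ℂ), x.2)) ≤ ε * p := by
      rw [map_smul_eq_mul, Complex.norm_real, Real.norm_of_nonneg (by positivity)]
      exact mul_le_of_le_one_right (by positivity) (pK _ k2)
    have a6 : q (((ε * s : ℝ) : ℂ) • (x.1, (0 : ℂ))) ≤ ε * s := by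
      rw [map_smul_eq_mul, Complex.norm_real, Real.norm_of_nonneg (by positivity)]
      exact mul_le_of_le_one_right (by positivity) (pK _ k1)
    have a4 := map_add_le_add q (((ε : ℂ) * a) • ((1 : ℂ), (0 : ℂ)))
      (((ε : ℂ) * b) • ((0 : ℂ), (1 : ℂ)))
    have a7 := map_add_le_add q (((ε * p : ℝ) : ℂ) • ((0 : ℂ), x.2))
      (((ε * s : ℝ) : ℂ) • (x.1, (0 : ℂ)))
    have a8 := map_add_le_add q ((((ε * p : ℝ) : ℂ) • ((0 : ℂ), x.2) +
      ((ε * s : ℝ) : ℂ) • (x.1, (0 : ℂ)))) ((((ε : ℂ) * a) • ((1 : ℂ), (0 : ℂ)) +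
      ((ε : ℂ) * b) • ((0 : ℂ), (1 : ℂ))))
    rw [hre] at a1
    nlinarith
  exact (gauge_lt_one_iff_mem_interior hK h0).1 hle

/-- a body between the `ℓ₁` ball and the bidisc -/
theorem cover_normal (hS : SelK) {K : Set (ℂ × ℂ)} (hK : Convex ℝ K) (hc : IsCompact K)
    (hb : Balanced ℂ K)
    (h0 : K ∈ 𝓝 0) (h1 : ((1 : ℂ), (0 : ℂ)) ∈ K) (h2 : ((0 : ℂ), (1 : ℂ)) ∈ K)
    (hs : ∀ x ∈ K, ‖x.1‖ ≤ 1 ∧ ‖x.2‖ ≤ 1) :
    ∃ S : Finset (ℂ × ℂ), S.card ≤ 12 ∧ K ⊆ ⋃ t ∈ S, (fun x => t + x) '' interior K := by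
  obtain ⟨D, hD, hsel⟩ := hS
  obtain ⟨S, hS, hcov⟩ := Pool.Agent.H765R3.Had.cover_of_dirs hK hc D (fun z hz => by
      obtain ⟨u, hu, l, w, p, s, hp, hs0, h⟩ := hsel z.1 z.2 (hs z hz).1 (hs z hz).2
      exact ⟨u, hu, illuminate hK hb h0 h1 h2 hz (hs z hz) hp hs0 h⟩)
  exact ⟨S, hS.trans hD, hcov⟩

/-- **circular bodies in `ℂ × ℂ`** -/
theorem cover_circular (hS : SelK) {K : Set (ℂ × ℂ)} (hK : Convex ℝ K) (hc : IsCompact K)
    (hi : (interior K).Nonempty) (hcirc : ∀ z : ℂ, ‖z‖ = 1 → ∀ x ∈ K, z • x ∈ K) :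
    ∃ S : Finset (ℂ × ℂ), S.card ≤ 12 ∧ K ⊆ ⋃ t ∈ S, (fun x => t + x) '' interior K := by
  -- `0` is an interior point
  have hneg : ∀ y ∈ interior K, -y ∈ interior K := by
    intro y hy
    have hsub : -K ⊆ K := by
      intro w hw
      have := hcirc (-1) (by simp) (-w) hw
      simpa using this
    have h3 : -interior K = interior (-K) := (Homeomorph.neg (ℂ × ℂ)).preimage_interior K
    have h4 : -y ∈ interior (-K) := by
      rw [← h3]; simpa using hy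
    exact interior_mono hsub h4
  have h0i : (0 : ℂ × ℂ) ∈ interior K := by
    obtain ⟨y, hy⟩ := hi
    have := hK.interior hy (hneg y hy) (a := 1 / 2) (b := 1 / 2) (by norm_num) (by norm_num)
      (by norm_num)
    simpa using this
  have h0 : K ∈ 𝓝 (0 : ℂ × ℂ) := mem_interior_iff_mem_nhds.1 h0i
  have hb : Balanced ℂ K := by
    rw [balanced_iff_smul_mem]
    intro a ha x hx
    rcases eq_or_ne a 0 with rfl | ha0
    · rw [zero_smul]; exact interior_subset h0i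
    · have h5 : (a / ‖a‖) • x ∈ K := by
        refine hcirc _ ?_ x hx
        rw [norm_div, Complex.norm_real, norm_norm, div_self (norm_ne_zero_iff.2 ha0)]
      have h6 := hK h5 (interior_subset h0i) (norm_nonneg a) (sub_nonneg.2 ha)
        (by ring : ‖a‖ + (1 - ‖a‖) = 1)
      rw [smul_zero, add_zero] at h6
      have e : ‖a‖ • ((a / ‖a‖) • x) = a • x := by
        rw [← Complex.coe_smul, smul_smul, mul_div_cancel₀]
        exact_mod_cast norm_ne_zero_iff.2 ha0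
      rwa [e] at h6
  -- the maximal determinant
  have hKK : IsCompact (K ×ˢ K) := hc.prod hc
  have hcont : Continuous fun q : (ℂ × ℂ) × (ℂ × ℂ) => ‖q.1.1 * q.2.2 - q.1.2 * q.2.1‖ := by
    fun_prop
  obtain ⟨⟨a, b⟩, ⟨ha, hbK⟩, hmax⟩ := hKK.exists_isMaxOn
    ⟨(0, 0), interior_subset h0i, interior_subset h0i⟩ hcont.continuousOn
  set D := a.1 * b.2 - a.2 * b.1 with hD
  have hmax' : ∀ x ∈ K, ∀ y ∈ K, ‖x.1 * y.2 - x.2 * y.1‖ ≤ ‖D‖ := by
    intro x hx y hy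
    exact hmax (show (x, y) ∈ K ×ˢ K from ⟨hx, hy⟩)
  have hD0 : D ≠ 0 := by
    obtain ⟨r, hr, hball⟩ := Metric.mem_nhds_iff.1 h0
    intro hD1
    have e1 : (((r / 2 : ℝ) : ℂ), (0 : ℂ)) ∈ K := by
      refine hball ?_
      rw [mem_ball_zero_iff, Prod.norm_def]
      simp only [norm_zero]
      rw [max_lt_iff]
      refine ⟨?_, hr⟩
      rw [Complex.norm_real, Real.norm_of_nonneg (by linarith)]
      linarith
    have e2 : ((0 : ℂ), ((r / 2 : ℝ) : ℂ)) ∈ K := by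
      refine hball ?_
      rw [mem_ball_zero_iff, Prod.norm_def]
      simp only [norm_zero]
      rw [max_lt_iff]
      refine ⟨hr, ?_⟩
      rw [Complex.norm_real, Real.norm_of_nonneg (by linarith)]
      linarith
    have := hmax' _ e1 _ e2
    rw [hD1, norm_zero] at this
    have h7 := norm_le_zero_iff.1 this
    simp only [mul_zero, sub_zero] at h7
    rw [mul_self_eq_zero] at h7
    have : r / 2 = 0 := by exact_mod_cast h7
    linarith
  -- the coordinates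
  let T : (ℂ × ℂ) ≃ₗ[ℝ] (ℂ × ℂ) :=
    { toFun := fun z => z.1 • a + z.2 • b
      map_add' := fun x y => by
        simp only [Prod.fst_add, Prod.snd_add, add_smul]; abel
      map_smul' := fun r x => by
        refine Prod.ext ?_ ?_ <;> simp <;> ring
      invFun := fun w => ((w.1 * b.2 - w.2 * b.1) / D, (a.1 * w.2 - a.2 * w.1) / D)
      left_inv := fun z => by
        refine Prod.ext ?_ ?_
        · simp only [Prod.fst_add, Prod.smul_fst, smul_eq_mul, Prod.snd_add, Prod.smul_snd]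
          rw [div_eq_iff hD0, hD]; ring
        · simp only [Prod.fst_add, Prod.smul_fst, smul_eq_mul, Prod.snd_add, Prod.smul_snd]
          rw [div_eq_iff hD0, hD]; ring
      right_inv := fun w => by
        refine Prod.ext ?_ ?_
        · simp only [Prod.fst_add, Prod.smul_fst, smul_eq_mul]
          field_simp
          rw [hD]; ring
        · simp only [Prod.snd_add, Prod.smul_snd, smul_eq_mul]
          field_simp
          rw [hD]; ring }
  let L : (ℂ × ℂ) ≃L[ℝ] (ℂ × ℂ) := T.toContinuousLinearEquiv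
  have hL : ∀ z : ℂ × ℂ, L z = z.1 • a + z.2 • b := fun z => rfl
  refine cover_equiv L ?_
  have hc' : IsCompact (L ⁻¹' K) := L.toHomeomorph.isCompact_preimage.2 hc
  refine cover_normal hS (hK.linear_preimage L.toLinearEquiv.toLinearMap) hc' ?_ ?_ ?_ ?_ ?_
  · rw [balanced_iff_smul_mem]
    intro w hw x hx
    have e : L (w • x) = w • L x := by
      simp only [hL, Prod.smul_fst, Prod.smul_snd, smul_eq_mul, smul_add, smul_smul]
    show L (w • x) ∈ K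
    rw [e]
    exact balanced_iff_smul_mem.1 hb hw hx
  · have : L 0 = 0 := map_zero L
    exact L.continuous.continuousAt.preimage_mem_nhds (by rw [this]; exact h0)
  · show L (1, 0) ∈ K
    rw [hL]; simpa using ha
  · show L (0, 1) ∈ K
    rw [hL]; simpa using hbK
  · intro z hz
    have hz' : z.1 • a + z.2 • b ∈ K := hz
    constructor
    · have h8 := hmax' _ hz' _ hbK
      have e : (z.1 • a + z.2 • b).1 * b.2 - (z.1 • a + z.2 • b).2 * b.1 = z.1 * D := by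
        simp only [Prod.fst_add, Prod.smul_fst, smul_eq_mul, Prod.snd_add, Prod.smul_snd]
        rw [hD]; ring
      rw [e, norm_mul] at h8
      exact le_of_mul_le_mul_right (by linarith) (norm_pos_iff.2 hD0)
    · have h8 := hmax' _ ha _ hz'
      have e : a.1 * (z.1 • a + z.2 • b).2 - a.2 * (z.1 • a + z.2 • b).1 = z.2 * D := by
        simp only [Prod.fst_add, Prod.smul_fst, smul_eq_mul, Prod.snd_add, Prod.smul_snd]
        rw [hD]; ring
      rw [e, norm_mul] at h8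
      exact le_of_mul_le_mul_right (by linarith) (norm_pos_iff.2 hD0)

/-- the weight one -/
theorem w8_of (h : SelK) : W8 := fun _ hK hc hi hcirc => cover_circular h hK hc hi hcirc

end Pool.Agent.Zk84.M4
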